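import Mathlib
import Pool.Agent.H139R3.MF.Top

set_option autoImplicit false

/-! # Refining a Polish topology to a zero-dimensional one -/

namespace Pool.Agent.Q190.KS

open Set TopologicalSpace Filter Topology

universe u v

/-- there is a basis of clopen sets -/
def ZD (X : Type u) [TopologicalSpace X] : Prop :=
  ∀ x : X, ∀ O : Set X, IsOpen O → x ∈ O → ∃ V : Set X, IsClopen V ∧ x ∈ V ∧ V ⊆ O

theorem step' {X : Type u} {H : Type v} [t0 : TopologicalSpace X] [p0 : PolishSpace X]
    [MeasurableSpace X] [b0 : BorelSpace X] (g : ℕ → X → X) (hg : ∀ n, Measurable (g n))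
    [TopologicalSpace H] [SecondCountableTopology H] [MeasurableSpace H] [OpensMeasurableSpace H]
    (h : X → H) (hh : Measurable h) (t : TopologicalSpace X) (ht : t ≤ t0)
    (hp : @PolishSpace X t) :
    ∃ t' : TopologicalSpace X, t' ≤ t ∧ @PolishSpace X t' ∧ (∀ n, @Continuous X X t' t (g n)) ∧
      @Continuous X H t' _ h ∧ ∀ x : X, ∀ O : Set X, IsOpen[t] O → x ∈ O →
        ∃ V : Set X, IsClosed[t'] V ∧ IsOpen[t'] V ∧ x ∈ V ∧ V ⊆ O := by
  classical
  have hb : @BorelSpace X t _ := by
    constructor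
    rw [b0.measurable_eq]
    exact (MeasureTheory.borel_eq_borel_of_le hp p0 ht).symm
  have h1 : ∃ b : ℕ → Set X, (∀ k, IsOpen[t] (b k)) ∧ ∀ x : X, ∀ O : Set X, IsOpen[t] O → x ∈ O →
      ∃ k, x ∈ b k ∧ b k ⊆ O := by
    let := t
    have := hp
    obtain ⟨B, hBc, -, hB⟩ := exists_countable_basis X
    obtain ⟨b, hb⟩ := (hBc.insert ∅).exists_eq_range ⟨∅, mem_insert _ _⟩
    refine ⟨b, ?_, ?_⟩
    · intro k
      have : b k ∈ insert ∅ B := hb ▸ mem_range_self k
      rcases this with h | h
      · rw [h]; exact isOpen_empty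
      · exact hB.isOpen h
    · intro x O hO hx
      obtain ⟨V, hV, hxV, hVO⟩ := hB.exists_subset_of_mem_open hx hO
      have : V ∈ range b := hb ▸ mem_insert_of_mem _ hV
      obtain ⟨k, rfl⟩ := this
      exact ⟨k, hxV, hVO⟩
  obtain ⟨b, hbo, hbb⟩ := h1
  have hbm : ∀ k, MeasurableSet (b k) := fun k => by
    let := t
    exact (hbo k).measurableSet
  have h2 : Measurable fun x : X => (h x, fun k : ℕ => (decide (x ∈ b k) : Bool)) := by
    refine hh.prodMk (measurable_pi_lambda _ fun k => ?_)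
    refine measurable_to_bool ?_
    have : (fun a => decide (a ∈ b k)) ⁻¹' {true} = b k := by
      ext x; simp
    rw [this]
    exact hbm k
  obtain ⟨t', ht', hp', hgc, hhc⟩ := @Pool.Agent.H139R3.MF.step X (H × (ℕ → Bool)) t0 p0 _ b0 g
    hg _ _ _ _ _ h2 t ht hp
  refine ⟨t', ht', hp', hgc, ?_, ?_⟩
  · exact @Continuous.comp X (H × (ℕ → Bool)) H t' _ _ _ _ continuous_fst hhc
  · intro x O hO hx
    obtain ⟨k, hxk, hkO⟩ := hbb x O hO hx
    have h3 : @Continuous X Bool t' _ (fun x => decide (x ∈ b k)) := by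
      have := (continuous_apply k).comp
        (continuous_snd : Continuous (Prod.snd : H × (ℕ → Bool) → (ℕ → Bool)))
      exact @Continuous.comp X (H × (ℕ → Bool)) Bool t' _ _ _ _ this hhc
    have h4 : (fun a => decide (a ∈ b k)) ⁻¹' {true} = b k := by
      ext x; simp
    refine ⟨b k, ?_, ?_, hxk, hkO⟩
    · rw [← h4]
      exact @IsClosed.preimage X Bool t' _ _ h3 _ isClosed_singleton
    · rw [← h4]
      exact @IsOpen.preimage X Bool t' _ _ h3 _ (isOpen_discrete _)

/-- A Polish topology can be refined to a zero-dimensional Polish topology for which countably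
many Borel self maps and one Borel map to a second countable space are continuous. -/
theorem exists_topology {X : Type u} {H : Type v} [t0 : TopologicalSpace X] [p0 : PolishSpace X]
    [MeasurableSpace X] [b0 : BorelSpace X] (g : ℕ → X → X) (hg : ∀ n, Measurable (g n))
    [TopologicalSpace H] [SecondCountableTopology H] [MeasurableSpace H] [OpensMeasurableSpace H]
    (h : X → H) (hh : Measurable h) :
    ∃ t : TopologicalSpace X, t ≤ t0 ∧ @PolishSpace X t ∧ @BorelSpace X t _ ∧
      (∀ n, @Continuous X X t t (g n)) ∧ @Continuous X H t _ h ∧ @ZD X t := by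
  choose F hF1 hF2 hF3 hF4 hF5 using @step' X H t0 p0 _ b0 g hg _ _ _ _ h hh
  let T : ℕ → {t : TopologicalSpace X // t ≤ t0 ∧ @PolishSpace X t} := fun n =>
    Nat.rec ⟨t0, le_rfl, p0⟩ (fun _ s => ⟨F s.1 s.2.1 s.2.2, (hF1 _ _ _).trans s.2.1,
      hF2 _ _ _⟩) n
  have T0 : (T 0).1 = t0 := rfl
  have TS : ∀ n, (T (n + 1)).1 = F (T n).1 (T n).2.1 (T n).2.2 := fun n => rfl
  have hle : (⨅ n, (T n).1) ≤ t0 := iInf_le_of_le 0 le_rfl
  have hp : @PolishSpace X (⨅ n, (T n).1) := by
    refine PolishSpace.iInf ⟨0, fun i => (T i).2.1⟩ (fun i => (T i).2.2)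
  have hanti : Antitone fun n => (T n).1 := antitone_nat_of_succ_le fun n => by
    rw [TS]
    exact hF1 _ _ _
  refine ⟨⨅ n, (T n).1, hle, hp, ?_, ?_, ?_, ?_⟩
  · refine @BorelSpace.mk X (⨅ n, (T n).1) _ ?_
    exact b0.measurable_eq.trans (MeasureTheory.borel_eq_borel_of_le hp p0 hle).symm
  · intro n
    rw [continuous_iInf_rng]
    intro k
    have e1 : @Continuous X X (T (k + 1)).1 (T k).1 (g n) := by
      rw [TS]
      exact hF3 _ _ _ n
    exact continuous_iInf_dom (i := k + 1) e1
  · have e1 : @Continuous X H (T (0 + 1)).1 _ h := by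
      rw [TS]
      exact hF4 _ _ _
    exact continuous_iInf_dom (i := 0 + 1) e1
  · intro x O hO hx
    have h1 : O ∈ @nhds X (⨅ n, (T n).1) x := @IsOpen.mem_nhds X (⨅ n, (T n).1) x O hO hx
    rw [nhds_iInf] at h1
    have h2 : Directed (· ≥ ·) fun n => @nhds X (T n).1 x := by
      intro m n
      refine ⟨max m n, ?_, ?_⟩
      · exact nhds_mono (hanti (le_max_left m n))
      · exact nhds_mono (hanti (le_max_right m n))
    obtain ⟨n, hn⟩ := (mem_iInf_of_directed h2 O).1 h1
    obtain ⟨U, hUO, hU, hxU⟩ := (@mem_nhds_iff X (T n).1 x O).1 hn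
    obtain ⟨V, hV1, hV2, hxV, hVU⟩ := hF5 (T n).1 (T n).2.1 (T n).2.2 x U hU hxU
    have h3 : (⨅ n, (T n).1) ≤ (T (n + 1)).1 := iInf_le (fun n => (T n).1) (n + 1)
    refine ⟨V, ⟨?_, ?_⟩, hxV, hVU.trans hUO⟩
    · exact IsClosed.mono (by rw [TS]; exact hV1) h3
    · exact h3 V (by rw [TS]; exact hV2)

/-- a zero-dimensional Polish space is homeomorphic to a closed subset of the Baire space -/
theorem exists_closedEmb {X : Type u} [TopologicalSpace X] [PolishSpace X] (hX : ZD X) :
    ∃ p : X → (ℕ → ℕ), IsClosedEmbedding p := by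
  classical
  let _ := upgradeIsCompletelyMetrizable X
  rcases isEmpty_or_nonempty X with he | hne
  · exact ⟨fun x => he.elim x, IsClosedEmbedding.of_continuous_injective_isClosedMap
      (continuous_of_const fun x => he.elim x) (fun x => he.elim x)
      (fun s _ => by rw [Set.eq_empty_of_isEmpty s, image_empty]; exact isClosed_empty)⟩
  -- partitions
  have h1 : ∀ ε : ℝ, 0 < ε → ∃ p : X → ℕ, Continuous p ∧ ∀ x y, p x = p y → dist x y < ε := by
    intro ε hε
    have h2 : ∀ x : X, ∃ V : Set X, IsClopen V ∧ x ∈ V ∧ V ⊆ Metric.ball x (ε / 2) := fun x =>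
      hX x _ Metric.isOpen_ball (Metric.mem_ball_self (by positivity))
    choose V hV1 hV2 hV3 using h2
    obtain ⟨s, hs, hsU⟩ := countable_cover_nhds (f := V) fun x => (hV1 x).isOpen.mem_nhds (hV2 x)
    have hsne : s.Nonempty := by
      obtain ⟨x⟩ := hne
      have : x ∈ ⋃ x ∈ s, V x := hsU ▸ mem_univ x
      simp only [mem_iUnion] at this
      obtain ⟨i, hi, -⟩ := this
      exact ⟨i, hi⟩
    obtain ⟨e, he⟩ := hs.exists_eq_range hsne
    have h3 : ∀ x, ∃ n, x ∈ V (e n) := by
      intro x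
      have : x ∈ ⋃ x ∈ s, V x := hsU ▸ mem_univ x
      simp only [mem_iUnion] at this
      obtain ⟨i, hi, hx⟩ := this
      rw [he] at hi
      obtain ⟨n, rfl⟩ := hi
      exact ⟨n, hx⟩
    refine ⟨fun x => Nat.find (h3 x), ?_, ?_⟩
    · rw [continuous_discrete_rng]
      intro n
      have : (fun x => Nat.find (h3 x)) ⁻¹' {n} = V (e n) ∩ ⋂ m ∈ Iio n, (V (e m))ᶜ := by
        ext x
        simp only [mem_preimage, mem_singleton_iff, Nat.find_eq_iff, mem_inter_iff, mem_iInter,
          mem_compl_iff, mem_Iio]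
      rw [this]
      refine (hV1 _).isOpen.inter ?_
      exact (finite_Iio n).isOpen_biInter fun m _ => (hV1 _).isClosed.isOpen_compl
    · intro x y hxy
      have hx := Nat.find_spec (h3 x)
      have hy := Nat.find_spec (h3 y)
      simp only at hxy
      rw [← hxy] at hy
      have hx' := hV3 _ hx
      have hy' := hV3 _ hy
      rw [Metric.mem_ball] at hx' hy'
      calc dist x y ≤ dist x (e (Nat.find (h3 x))) + dist y (e (Nat.find (h3 x))) :=
            dist_triangle_right _ _ _
        _ < ε := by linarith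
  choose p hp1 hp2 using fun n : ℕ => h1 (1 / ((n : ℝ) + 1)) (by positivity)
  refine ⟨fun x n => p n x, ?_⟩
  have hcont : Continuous fun x n => p n x := continuous_pi hp1
  have hinj : Function.Injective fun x n => p n x := by
    intro x y hxy
    by_contra hne
    have : 0 < dist x y := dist_pos.2 hne
    obtain ⟨n, hn⟩ := exists_nat_one_div_lt this
    have := hp2 n x y (congrFun hxy n)
    linarith
  refine IsClosedEmbedding.of_continuous_injective_isClosedMap hcont hinj ?_
  intro F hF
  rw [← isSeqClosed_iff_isClosed]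
  intro z w hz hzw
  choose x hxF hxz using hz
  have hcau : CauchySeq x := by
    rw [Metric.cauchySeq_iff']
    intro ε hε
    obtain ⟨n, hn⟩ := exists_nat_one_div_lt hε
    have h4 : ∀ᶠ k in atTop, z k n = w n := by
      have := (tendsto_pi_nhds.1 hzw) n
      rw [nhds_discrete] at this
      exact (this.eventually (eventually_pure.2 rfl : ∀ᶠ m in pure (w n), m = w n))
    obtain ⟨N, hN⟩ := eventually_atTop.1 h4
    refine ⟨N, fun k hk => ?_⟩
    refine (hp2 n _ _ ?_).trans hn
    have e1 := congrFun (hxz k) n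
    have e2 := congrFun (hxz N) n
    simp only at e1 e2
    rw [e1, e2, hN k hk, hN N le_rfl]
  obtain ⟨a, ha⟩ := cauchySeq_tendsto_of_complete hcau
  refine ⟨a, hF.mem_of_tendsto ha (Eventually.of_forall hxF), ?_⟩
  refine tendsto_nhds_unique ((hcont.tendsto a).comp ha) ?_
  have : (fun x n => p n x) ∘ x = z := funext hxz
  rw [this]
  exact hzw

end Pool.Agent.Q190.KS
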