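import Mathlib
import Pool.Agent.Q190.KS.Top

set_option autoImplicit false

/-! # A compactification with countable remainder -/

namespace Pool.Agent.Q190.KS

open Set TopologicalSpace Filter Topology

universe u v

/-- the set of finite prefixes of a sequence -/
def pre (z : ℕ → ℕ) (l : List ℕ) : Bool := decide (∀ i : Fin l.length, z i = l.get i)

theorem pre_iff (z : ℕ → ℕ) (l : List ℕ) : pre z l = true ↔ ∀ i : Fin l.length, z i = l.get i := by
  simp only [pre, decide_eq_true_iff]

theorem pre_cont : Continuous pre := by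
  refine continuous_pi fun l => ?_
  rw [continuous_bool_rng true]
  have : (fun z => pre z l) ⁻¹' {true} = ⋂ i : Fin l.length, {z | z i = l.get i} := by
    ext z
    simp only [mem_preimage, mem_singleton_iff, pre_iff, mem_iInter, mem_ofPred_eq]
  rw [this]
  refine isClopen_iInter_of_finite fun i => ?_
  have h := (isClopen_discrete ({l.get i} : Set ℕ)).preimage (continuous_apply (A := fun _ : ℕ => ℕ) (i : ℕ))
  exact h

/-- the list of the first values -/
def lst (z : ℕ → ℕ) (n : ℕ) : List ℕ := List.ofFn fun i : Fin n => z i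

theorem pre_lst (z : ℕ → ℕ) (n : ℕ) : pre z (lst z n) = true := by
  rw [pre_iff]
  intro i
  simp [lst]

theorem lst_len (z : ℕ → ℕ) (n : ℕ) : (lst z n).length = n := by simp [lst]

theorem lst_get (z : ℕ → ℕ) (n : ℕ) (i : Fin (lst z n).length) : (lst z n).get i = z i := by
  unfold lst
  rw [List.get_ofFn]
  rfl

theorem eq_of_pre (z z' : ℕ → ℕ) (n : ℕ) (h : pre z' (lst z (n + 1)) = true) : z' n = z n := by
  rw [pre_iff] at h
  have := h ⟨n, by rw [lst_len]; omega⟩
  rw [this]
  exact lst_get z (n + 1) ⟨n, by rw [lst_len]; omega⟩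

theorem pre_ind : IsInducing pre := by
  rw [isInducing_iff_nhds]
  intro z
  refine le_antisymm (pre_cont.tendsto z).le_comap ?_
  have : Tendsto id (comap pre (𝓝 (pre z))) (𝓝 z) := by
    rw [tendsto_pi_nhds]
    intro n
    rw [nhds_discrete ℕ]
    refine tendsto_pure.2 ?_
    have h1 : ∀ᶠ ω in 𝓝 (pre z), ω (lst z (n + 1)) = true := by
      have h2 : Tendsto (fun ω : List ℕ → Bool => ω (lst z (n + 1))) (𝓝 (pre z))
          (𝓝 (pre z (lst z (n + 1)))) := (continuous_apply _).tendsto _
      rw [nhds_discrete Bool, pre_lst] at h2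
      exact tendsto_pure.1 h2
    have h3 := h1.comap pre
    filter_upwards [h3] with z' hz'
    exact eq_of_pre z z' n hz'
  exact this

theorem pre_inj : Function.Injective pre := by
  intro z z' h
  funext n
  refine (eq_of_pre z z' n ?_).symm
  rw [← h]
  exact pre_lst z (n + 1)

theorem pre_emb : IsEmbedding pre := ⟨pre_ind, pre_inj⟩

theorem lim_cases {X : Type u} (p : X → ℕ → ℕ) (hp : IsClosed (range p)) (x : ℕ → X)
    (ω : List ℕ → Bool) (hω : Tendsto (fun j => pre (p (x j))) atTop (𝓝 ω)) :
    (∃ a, ω = pre (p a)) ∨ {l | ω l = true}.Finite := by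
  have hev : ∀ l, ∀ᶠ j in atTop, pre (p (x j)) l = ω l := by
    intro l
    have := (tendsto_pi_nhds.1 hω) l
    rw [nhds_discrete] at this
    exact tendsto_pure.1 this
  by_cases hA : ∀ n, ∃ l : List ℕ, l.length = n ∧ ω l = true
  · left
    choose l hl1 hl2 using hA
    let z : ℕ → ℕ := fun n => (l (n + 1)).get ⟨n, by rw [hl1]; omega⟩
    have hz : Tendsto (fun j => p (x j)) atTop (𝓝 z) := by
      rw [tendsto_pi_nhds]
      intro n
      rw [nhds_discrete]
      refine tendsto_pure.2 ?_
      filter_upwards [hev (l (n + 1))] with j hj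
      rw [hl2, pre_iff] at hj
      exact hj ⟨n, by rw [hl1]; omega⟩
    obtain ⟨a, ha⟩ := hp.mem_of_tendsto hz (Eventually.of_forall fun j => mem_range_self _)
    refine ⟨a, tendsto_nhds_unique hω ?_⟩
    rw [ha]
    exact (pre_cont.tendsto z).comp hz
  · right
    push Not at hA
    obtain ⟨n, hn⟩ := hA
    have h1 : {l | ω l = true} ⊆ ⋃ m ∈ Iio n, {l : List ℕ | l.length = m ∧ ω l = true} := by
      intro l hl
      simp only [mem_iUnion, mem_Iio, mem_ofPred_eq]
      refine ⟨l.length, ?_, rfl, hl⟩
      by_contra hlen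
      push Not at hlen
      apply hn (l.take n) (by rw [List.length_take]; omega)
      obtain ⟨j, hj1, hj2⟩ := ((hev l).and (hev (l.take n))).exists
      rw [← hj2, pre_iff]
      have hl' : ω l = true := hl
      rw [hl', pre_iff] at hj1
      intro i
      have hi : (i : ℕ) < l.length :=
        lt_of_lt_of_le i.2 (by rw [List.length_take]; exact min_le_right _ _)
      rw [hj1 ⟨i, hi⟩]
      simp
    refine Set.Finite.subset ?_ h1
    refine (finite_Iio n).biUnion fun m _ => ?_
    refine Set.Subsingleton.finite ?_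
    rintro l ⟨hl1, hl2⟩ l' ⟨hl1', hl2'⟩
    obtain ⟨j, hj1, hj2⟩ := ((hev l).and (hev l')).exists
    rw [hl2, pre_iff] at hj1
    rw [hl2', pre_iff] at hj2
    refine List.ext_get (by rw [hl1, hl1']) ?_
    intro i h1 h2
    rw [← hj1 ⟨i, h1⟩, ← hj2 ⟨i, h2⟩]

theorem count_fin : {ω : List ℕ → Bool | {l | ω l = true}.Finite}.Countable := by
  have h := Set.countable_ofPred_finite_subset (Set.countable_univ (α := List ℕ))
  have h2 : {ω : List ℕ → Bool | {l | ω l = true}.Finite} ⊆
      (fun ω : List ℕ → Bool => {l | ω l = true}) ⁻¹' {t : Set (List ℕ) | t.Finite ∧ t ⊆ univ} := by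
    intro ω hω
    exact ⟨hω, subset_univ _⟩
  refine Set.Countable.mono h2 (h.preimage_of_injOn ?_)
  intro ω _ ω' _ h
  funext l
  have := Set.ext_iff.1 h l
  simp only [mem_ofPred_eq] at this
  cases h1 : ω l <;> cases h3 : ω' l <;> simp_all

/-- a zero-dimensional Polish space has a compactification with countable nonempty remainder -/
theorem exists_compact {X : Type u} [TopologicalSpace X] [PolishSpace X] (hX : ZD X) :
    ∃ (Q : Type) (_ : TopologicalSpace Q) (_ : CompactSpace Q) (_ : PolishSpace Q) (e : X → Q),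
      IsEmbedding e ∧ (range e)ᶜ.Countable ∧ (range e)ᶜ.Nonempty := by
  obtain ⟨p, hp⟩ := exists_closedEmb hX
  let S : Set (List ℕ → Bool) := closure (range fun x => pre (p x)) ∪ {fun _ => false}
  have hS : IsClosed S := isClosed_closure.union isClosed_singleton
  have h1 : CompactSpace S := isCompact_iff_compactSpace.1 hS.isCompact
  have h0 : PolishSpace (List ℕ → Bool) := {}
  have h2 : PolishSpace S := hS.polishSpace
  have hx : ∀ x, pre (p x) ∈ S := fun x => Or.inl (subset_closure (mem_range_self x))
  let e : X → S := fun x => ⟨pre (p x), hx x⟩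
  have he : IsEmbedding e := by
    have h3 : IsEmbedding (Subtype.val ∘ e) := pre_emb.comp hp.isEmbedding
    exact IsEmbedding.of_comp (Continuous.subtype_mk (pre_cont.comp hp.continuous) _)
      continuous_subtype_val h3
  refine ⟨S, inferInstance, h1, h2, e, he, ?_, ?_⟩
  · have h4 : (range e)ᶜ ⊆ Subtype.val ⁻¹' {ω : List ℕ → Bool | {l | ω l = true}.Finite} := by
      rintro ⟨ω, hω⟩ hne
      rcases hω with hω | hω
      · obtain ⟨y, hy, hyω⟩ := mem_closure_iff_seq_limit.1 hω
        choose x hx' using hy
        have h5 : Tendsto (fun j => pre (p (x j))) atTop (𝓝 ω) := by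
          have : (fun j => pre (p (x j))) = y := funext hx'
          rw [this]; exact hyω
        rcases lim_cases p hp.isClosed_range x ω h5 with ⟨a, ha⟩ | h6
        · exact absurd ⟨a, Subtype.ext ha.symm⟩ hne
        · exact h6
      · have : ω = fun _ => false := hω
        subst this
        simp
    exact Set.Countable.mono h4 (count_fin.preimage_of_injOn Subtype.val_injective.injOn)
  · refine ⟨⟨fun _ => false, Or.inr rfl⟩, ?_⟩
    rintro ⟨x, hx⟩
    have := congrFun (congrArg Subtype.val hx) []
    have h7 : pre (p x) [] = true := by rw [pre_iff]; intro i; exact i.elim0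
    simp only [e] at this
    rw [h7] at this
    exact absurd this (by decide)

end Pool.Agent.Q190.KS
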