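import Mathlib

set_option autoImplicit false

/-! # Blowing up a countable dense class -/

namespace Pool.Agent.Q190.KS

open Set TopologicalSpace Filter Topology MeasureTheory

/-- the base space -/
abbrev C : Type := ℕ × (ℕ → Bool)

/-- names of the points which are blown up -/
abbrev D : Type := ℕ × Finset ℕ

/-- the points which are blown up -/
def io (d : D) : C := (d.1, fun n => decide (n ∈ d.2))

theorem io_inj : Function.Injective io := by
  rintro ⟨a, F⟩ ⟨b, G⟩ h
  have h1 : a = b := congrArg Prod.fst h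
  have h2 := congrArg Prod.snd h
  refine Prod.ext h1 (Finset.ext fun n => ?_)
  have h3 := congrFun h2 n
  simp only [io] at h3
  exact decide_eq_decide.1 h3

/-- eventual equality -/
def EE (q q' : ℕ → Bool) : Prop := ∃ N, ∀ n, N ≤ n → q n = q' n

theorem ee_refl (q : ℕ → Bool) : EE q q := ⟨0, fun _ _ => rfl⟩

theorem ee_symm {q q' : ℕ → Bool} (h : EE q q') : EE q' q := by
  obtain ⟨N, h⟩ := h
  exact ⟨N, fun n hn => (h n hn).symm⟩

theorem ee_trans {q q' q'' : ℕ → Bool} (h : EE q q') (h' : EE q' q'') : EE q q'' := by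
  obtain ⟨N, h⟩ := h
  obtain ⟨M, h'⟩ := h'
  exact ⟨max N M, fun n hn => (h n (le_trans (le_max_left _ _) hn)).trans
    (h' n (le_trans (le_max_right _ _) hn))⟩

theorem io_range (c : C) : c ∈ range io ↔ EE c.2 fun _ => false := by
  constructor
  · rintro ⟨⟨a, F⟩, rfl⟩
    obtain ⟨N, hN⟩ := F.bddAbove
    refine ⟨N + 1, fun n hn => ?_⟩
    simp only [io, decide_eq_false_iff_not]
    intro h
    have := hN h
    omega
  · rintro ⟨N, hN⟩
    refine ⟨(c.1, (Finset.range N).filter fun n => c.2 n = true), ?_⟩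
    refine Prod.ext rfl (funext fun n => ?_)
    simp only [io, Finset.mem_filter, Finset.mem_range]
    by_cases hn : n < N
    · cases h : c.2 n <;> simp [hn]
    · rw [hN n (by omega)]
      simp

/-- the level at which two points differ -/
noncomputable def v (c c' : C) : ℕ := if c.1 = c'.1 then PiNat.firstDiff c.2 c'.2 else 0

theorem v_of (c c' : C) (n : ℕ) (h1 : c.1 = c'.1) (h2 : ∀ i < n, c.2 i = c'.2 i)
    (h3 : c.2 n ≠ c'.2 n) : v c c' = n := by
  unfold v
  rw [if_pos h1]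
  have h4 : c.2 ≠ c'.2 := fun h => h3 (congrFun h n)
  apply le_antisymm
  · by_contra h
    push Not at h
    exact h3 (PiNat.apply_eq_of_lt_firstDiff h)
  · by_contra h
    push Not at h
    exact PiNat.apply_firstDiff_ne h4 (h2 _ h)

theorem v_spec (c c' : C) (h1 : c.1 = c'.1) (h : c.2 ≠ c'.2) :
    (∀ i < v c c', c.2 i = c'.2 i) ∧ c.2 (v c c') ≠ c'.2 (v c c') := by
  unfold v
  rw [if_pos h1]
  exact ⟨fun i hi => PiNat.apply_eq_of_lt_firstDiff hi, PiNat.apply_firstDiff_ne h⟩

theorem nhds_fst (c : C) : ∀ᶠ c' in 𝓝 c, c'.1 = c.1 := by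
  have h : Tendsto (fun c' : C => c'.1) (𝓝 c) (𝓝 c.1) := continuous_fst.tendsto c
  rw [nhds_discrete ℕ] at h
  exact tendsto_pure.1 h

theorem nhds_snd (c : C) (i : ℕ) : ∀ᶠ c' in 𝓝 c, c'.2 i = c.2 i := by
  have h : Tendsto (fun c' : C => c'.2 i) (𝓝 c) (𝓝 (c.2 i)) :=
    ((continuous_apply i).comp continuous_snd).tendsto c
  rw [nhds_discrete Bool] at h
  exact tendsto_pure.1 h

theorem v_const (c c0 : C) (h : c ≠ c0) : ∀ᶠ c' in 𝓝 c, c' ≠ c0 ∧ v c' c0 = v c c0 := by
  by_cases h1 : c.1 = c0.1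
  · have h2 : c.2 ≠ c0.2 := fun h2 => h (Prod.ext h1 h2)
    obtain ⟨h3, h4⟩ := v_spec c c0 h1 h2
    have h5 : ∀ᶠ c' in 𝓝 c, ∀ i ∈ Finset.range (v c c0 + 1), c'.2 i = c.2 i :=
      (Filter.eventually_all_finset _).2 fun i _ => nhds_snd c i
    filter_upwards [nhds_fst c, h5] with c' hc1 hc2
    have h6 : c'.2 (v c c0) ≠ c0.2 (v c c0) := by
      rw [hc2 _ (by simp)]; exact h4
    refine ⟨fun h' => h6 (by rw [h']), ?_⟩
    refine v_of c' c0 _ (hc1.trans h1) (fun i hi => ?_) h6
    rw [hc2 i (by simp; omega), h3 i hi]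
  · filter_upwards [nhds_fst c] with c' hc1
    have h2 : c'.1 ≠ c0.1 := by rw [hc1]; exact h1
    refine ⟨fun h' => h2 (by rw [h']), ?_⟩
    unfold v
    rw [if_neg h1, if_neg h2]

theorem v_meas (c0 : C) : Measurable fun c => v c c0 := by
  refine measurable_to_countable' fun n => ?_
  have h1 : IsOpen {c | c ≠ c0 ∧ v c c0 = n} := by
    rw [isOpen_iff_mem_nhds]
    rintro c ⟨h1, h2⟩
    filter_upwards [v_const c c0 h1] with c' hc'
    exact ⟨hc'.1, hc'.2.trans h2⟩
  have h2 : (fun c => v c c0) ⁻¹' {n} =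
      {c | c ≠ c0 ∧ v c c0 = n} ∪ ({c0} ∩ (fun c => v c c0) ⁻¹' {n}) := by
    ext c
    by_cases h : c = c0
    · subst h; simp
    · simp [h]
  rw [h2]
  refine h1.measurableSet.union ?_
  rcases (subset_singleton_iff_eq.1 (inter_subset_left : {c0} ∩ (fun c => v c c0) ⁻¹' {n} ⊆ {c0}))
    with h | h
  · rw [h]; exact MeasurableSet.empty
  · rw [h]; exact measurableSet_singleton _

/-- adding a finite set -/
def xr (g : Finset ℕ) (z : ℕ → Bool) : ℕ → Bool := fun n => xor (z n) (decide (n ∈ g))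

theorem xr_cont (g : Finset ℕ) : Continuous (xr g) := by
  refine continuous_pi fun n => ?_
  exact (continuous_of_discreteTopology (f := fun b : Bool => xor b (decide (n ∈ g)))).comp
    (continuous_apply n)

theorem xr_ee (g : Finset ℕ) (z : ℕ → Bool) : EE z (xr g z) := by
  obtain ⟨N, hN⟩ := g.bddAbove
  refine ⟨N + 1, fun n hn => ?_⟩
  have : n ∉ g := fun h => by
    have := hN h
    omega
  simp [xr, this]

theorem xr_io (a a' : ℕ) (F g : Finset ℕ) : (a', xr g (io (a, F)).2) = io (a', symmDiff F g) := by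
  refine Prod.ext rfl (funext fun n => ?_)
  simp only [xr, io, Finset.mem_symmDiff]
  by_cases h1 : n ∈ F <;> by_cases h2 : n ∈ g <;> simp [h1, h2]

theorem v_xr (a a' : ℕ) (z w : ℕ → Bool) (g : Finset ℕ) :
    v (a', xr g z) (a', xr g w) = v (a, z) (a, w) := by
  by_cases h : z = w
  · subst h
    simp only [v, if_true, PiNat.firstDiff_def, ne_eq, not_true_eq_false, dif_neg,
      not_false_eq_true]
  · obtain ⟨h3, h4⟩ := v_spec (a, z) (a, w) rfl h
    refine v_of _ _ _ rfl (fun i hi => ?_) ?_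
    · simp only [xr]
      rw [show z i = w i from h3 i hi]
    · simp only [xr]
      intro h5
      apply h4
      show z _ = w _
      revert h5
      cases z (v (a, z) (a, w)) <;> cases w (v (a, z) (a, w)) <;>
        cases decide (v (a, z) (a, w) ∈ g) <;> simp

section

variable {Q : Type} [TopologicalSpace Q] (u : ℕ → D → Q) (K : D → Set Q)

/-- the value near a blown up point -/
noncomputable def ph (d : D) (c : C) : Q := u (v c (io d)) d

/-- the space -/
def Ys : Set (C × (D → Q)) := {y | ∀ d, y.2 d ∈ K d ∧ (y.1 ≠ io d → y.2 d = ph u d y.1)}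

theorem Ys_closed [T2Space Q] (hK : ∀ d, IsClosed (K d)) : IsClosed (Ys u K) := by
  have h1 : Ys u K = ⋂ d, ({y | y.2 d ∈ K d} ∩ {y | y.1 ≠ io d → y.2 d = ph u d y.1}) := by
    ext y
    simp only [Ys, mem_ofPred_eq, mem_iInter, mem_inter_iff]
  rw [h1]
  refine isClosed_iInter fun d => ?_
  have hc : Continuous fun y : C × (D → Q) => y.2 d := (continuous_apply d).comp continuous_snd
  refine ((hK d).preimage hc).inter ?_
  rw [← isOpen_compl_iff, isOpen_iff_mem_nhds]
  intro y hy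
  simp only [mem_compl_iff, mem_ofPred_eq, Classical.not_imp] at hy
  obtain ⟨h2, h3⟩ := hy
  have h4 : ∀ᶠ y' in 𝓝 y, y'.1 ≠ io d ∧ v y'.1 (io d) = v y.1 (io d) :=
    (continuous_fst.tendsto y).eventually (v_const y.1 (io d) h2)
  have h5 : ∀ᶠ y' in 𝓝 y, y'.2 d ≠ ph u d y.1 :=
    (hc.tendsto y).eventually (isOpen_ne.mem_nhds h3)
  filter_upwards [h4, h5] with y' h6 h7
  simp only [mem_compl_iff, mem_ofPred_eq, Classical.not_imp]
  refine ⟨h6.1, ?_⟩
  unfold ph at h7 ⊢
  rw [h6.2]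
  exact h7

open Classical in
/-- the point over `c` with coordinate `q` -/
noncomputable def G (c : C) (q : Q) : C × (D → Q) := (c, fun d => if io d = c then q else ph u d c)

variable {u K}

omit [TopologicalSpace Q] in
theorem G_mem (hu : ∀ n d, u n d ∈ K d) (c : C) (q : Q) (h : ∀ d, io d = c → q ∈ K d) :
    G u c q ∈ Ys u K := by
  intro d
  by_cases hd : io d = c
  · refine ⟨?_, fun h' => absurd hd.symm h'⟩
    simp only [G, if_pos hd]
    exact h d hd
  · have h1 : (G u c q).2 d = ph u d c := by simp only [G, if_neg hd]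
    exact ⟨by rw [h1]; exact hu _ _, fun _ => h1⟩

omit [TopologicalSpace Q] in
theorem eq_G (y : C × (D → Q)) (hy : y ∈ Ys u K) (d : D) (hd : y.1 = io d) :
    y = G u (io d) (y.2 d) := by
  refine Prod.ext hd (funext fun d' => ?_)
  by_cases h : io d' = io d
  · have h' := io_inj h
    subst h'
    simp only [G, if_true]
  · simp only [G, if_neg h]
    rw [(hy d').2 (by rw [hd]; exact fun h' => h h'.symm), hd]

omit [TopologicalSpace Q] in
theorem eq_G' (y : C × (D → Q)) (hy : y ∈ Ys u K) (hd : y.1 ∉ range io) (q : Q) :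
    y = G u y.1 q := by
  refine Prod.ext rfl (funext fun d' => ?_)
  have h : io d' ≠ y.1 := fun h => hd ⟨d', h⟩
  simp only [G, if_neg h]
  exact (hy d').2 fun h' => h h'.symm

variable (u) in
theorem G_meas [MeasurableSpace Q] [BorelSpace Q] : Measurable fun p : C × Q => G u p.1 p.2 := by
  refine measurable_fst.prodMk (measurable_pi_lambda _ fun d => ?_)
  refine Measurable.ite ?_ measurable_snd ?_
  · have : {p : C × Q | io d = p.1} = Prod.fst ⁻¹' {io d} := by
      ext p
      simp only [mem_ofPred_eq, mem_preimage, mem_singleton_iff]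
      exact eq_comm
    rw [this]
    exact measurable_fst (measurableSet_singleton _)
  · exact (measurable_of_countable (fun n => u n d)).comp ((v_meas (io d)).comp measurable_fst)

/-- a neighbourhood of a point off the blown up points -/
theorem nhds_off (y : Ys u K) (hy : y.1.1 ∉ range io) :
    Tendsto id (comap (fun y' : Ys u K => y'.1.1) (𝓝 y.1.1)) (𝓝 y) := by
  rw [tendsto_subtype_rng, Prod.tendsto_iff]
  refine ⟨tendsto_comap, ?_⟩
  rw [tendsto_pi_nhds]
  intro d
  refine tendsto_const_nhds.congr' ?_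
  have h1 : y.1.1 ≠ io d := fun h => hy ⟨d, h.symm⟩
  have h2 := (v_const y.1.1 (io d) h1).comap (fun y' : Ys u K => y'.1.1)
  filter_upwards [h2] with y' hy'
  show y.1.2 d = y'.1.2 d
  rw [(y.2 d).2 h1, (y'.2 d).2 hy'.1]
  unfold ph
  rw [hy'.2]

/-- a sequence off the blown up points -/
def cs (d : D) (n : ℕ) : C :=
  (d.1, fun m => if m < n then (io d).2 m else if m = n then !(io d).2 n else decide (Even m))

theorem cs_off (d : D) (n : ℕ) : cs d n ∉ range io := by
  rw [io_range]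
  rintro ⟨N, hN⟩
  have h1 := hN (2 * (N + n + 1)) (by omega)
  have h2 : ¬ 2 * (N + n + 1) < n := by omega
  have h3 : 2 * (N + n + 1) ≠ n := by omega
  simp only [cs, if_neg h2, if_neg h3, even_two_mul] at h1
  simp at h1

theorem cs_v (d : D) (n : ℕ) : v (cs d n) (io d) = n := by
  refine v_of _ _ n rfl (fun i hi => ?_) ?_
  · simp only [cs, if_pos hi]
  · simp only [cs, lt_irrefl, if_false, if_true]
    cases (io d).2 n <;> simp

theorem cs_tendsto (d : D) : Tendsto (cs d) atTop (𝓝 (io d)) := by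
  rw [nhds_prod_eq, Filter.tendsto_prod_iff']
  refine ⟨tendsto_const_nhds, ?_⟩
  rw [tendsto_pi_nhds]
  intro m
  refine tendsto_const_nhds.congr' ?_
  filter_upwards [eventually_gt_atTop m] with n hn
  simp only [cs, if_pos hn]

theorem near_off (hu : ∀ n d, u n d ∈ K d)
    (hud : ∀ d, ∀ q ∈ K d, ∀ m, ∀ W ∈ 𝓝 q, ∃ n, m ≤ n ∧ u n d ∈ W) (y : Ys u K) (d : D)
    (hy : y.1.1 = io d) (O : Set (Ys u K)) (hO : O ∈ 𝓝 y) : ∃ y' ∈ O, y'.1.1 ∉ range io := by
  let F : Filter ℕ := atTop ⊓ comap (fun n => u n d) (𝓝 (y.1.2 d))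
  have hF : F.NeBot := by
    rw [Filter.inf_neBot_iff]
    intro s hs s' hs'
    obtain ⟨m, hm⟩ := mem_atTop_sets.1 hs
    obtain ⟨W, hW, hWs⟩ := mem_comap.1 hs'
    obtain ⟨n, hn, hnW⟩ := hud d _ (y.2 d).1 m W hW
    exact ⟨n, hm n hn, hWs hnW⟩
  have hmem : ∀ n, G u (cs d n) (y.1.2 d) ∈ Ys u K := fun n =>
    G_mem hu _ _ fun d' hd' => absurd ⟨d', hd'⟩ (cs_off d n)
  let w : ℕ → Ys u K := fun n => ⟨G u (cs d n) (y.1.2 d), hmem n⟩
  have hw : Tendsto w F (𝓝 y) := by
    rw [tendsto_subtype_rng, nhds_prod_eq, Filter.tendsto_prod_iff']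
    constructor
    · rw [hy]
      exact (cs_tendsto d).mono_left inf_le_left
    · rw [tendsto_pi_nhds]
      intro d'
      have h0 : ∀ n, (w n).1.2 d' = ph u d' (cs d n) := fun n =>
        ((w n).2 d').2 fun h => cs_off d n ⟨d', h.symm⟩
      by_cases hd : d' = d
      · subst hd
        have h1 : Tendsto (fun n => u n d') F (𝓝 (y.1.2 d')) :=
          tendsto_comap.mono_left inf_le_right
        refine h1.congr fun n => ?_
        rw [h0]
        unfold ph
        rw [cs_v]
      · refine tendsto_const_nhds.congr' ?_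
        have h1 : io d ≠ io d' := fun h => hd (io_inj h).symm
        have h2 := ((cs_tendsto d).mono_left (inf_le_left : F ≤ atTop)).eventually
          (v_const (io d) (io d') h1)
        filter_upwards [h2] with n hn
        rw [h0, (y.2 d').2 (by rw [hy]; exact h1), hy]
        unfold ph
        rw [hn.2]
  obtain ⟨n, hn⟩ := (hw.eventually hO).exists
  exact ⟨w n, hn, cs_off d n⟩

/-- every nonempty open set contains all points over some nonempty open set -/
theorem open_contains (hu : ∀ n d, u n d ∈ K d)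
    (hud : ∀ d, ∀ q ∈ K d, ∀ m, ∀ W ∈ 𝓝 q, ∃ n, m ≤ n ∧ u n d ∈ W) (O : Set (Ys u K))
    (hO : IsOpen O) (hne : O.Nonempty) :
    ∃ c : C, ∃ V ∈ 𝓝 c, ∀ y : Ys u K, y.1.1 ∈ V → y ∈ O := by
  have h1 : ∃ y ∈ O, y.1.1 ∉ range io := by
    obtain ⟨y, hy⟩ := hne
    by_cases h : y.1.1 ∈ range io
    · obtain ⟨d, hd⟩ := h
      exact near_off hu hud y d hd.symm O (hO.mem_nhds hy)
    · exact ⟨y, hy, h⟩
  obtain ⟨y, hy, hyo⟩ := h1
  have h2 := nhds_off y hyo (hO.mem_nhds hy)
  obtain ⟨V, hV, hVO⟩ := mem_comap.1 h2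
  exact ⟨y.1.1, V, hV, fun y' hy' => hVO hy'⟩

theorem dense_ee (c : C) (V : Set C) (hV : V ∈ 𝓝 c) (z : ℕ → Bool) :
    ∃ c' ∈ V, EE z c'.2 := by
  let w : ℕ → C := fun n => (c.1, fun m => if m < n then c.2 m else z m)
  have hw : Tendsto w atTop (𝓝 c) := by
    rw [nhds_prod_eq, Filter.tendsto_prod_iff']
    refine ⟨tendsto_const_nhds, ?_⟩
    rw [tendsto_pi_nhds]
    intro m
    refine tendsto_const_nhds.congr' ?_
    filter_upwards [eventually_gt_atTop m] with n hn
    simp only [w, if_pos hn]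
  obtain ⟨n, hn⟩ := (hw.eventually hV).exists
  refine ⟨w n, hn, n, fun m hm => ?_⟩
  simp only [w, if_neg (show ¬ m < n by omega)]

theorem dense_io (c : C) (V : Set C) (hV : V ∈ 𝓝 c) : ∃ d, io d ∈ V := by
  obtain ⟨c', hc', h⟩ := dense_ee c V hV fun _ => false
  obtain ⟨d, rfl⟩ := (io_range c').2 (ee_symm h)
  exact ⟨d, hc'⟩

theorem compact_level [CompactSpace Q] [T2Space Q] (hK : ∀ d, IsClosed (K d)) (a : ℕ) :
    IsCompact {y : Ys u K | y.1.1.1 = a} := by
  have h1 : IsCompact (({a} ×ˢ (univ : Set (ℕ → Bool))) ×ˢ (univ : Set (D → Q))) :=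
    ((isCompact_singleton).prod isCompact_univ).prod isCompact_univ
  have h2 := (Ys_closed u K hK).isClosedEmbedding_subtypeVal.isCompact_preimage h1
  have h3 : {y : Ys u K | y.1.1.1 = a} =
      Subtype.val ⁻¹' (({a} ×ˢ (univ : Set (ℕ → Bool))) ×ˢ (univ : Set (D → Q))) := by
    ext y
    simp
  rw [h3]
  exact h2

end

end Pool.Agent.Q190.KS
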