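import Mathlib
import Pool.Agent.Q190.KS.Space
import Pool.Agent.TH635.CR_ABS

set_option autoImplicit false

/-! # The realization -/

namespace Pool.Agent.Q190.KS

open Set TopologicalSpace Filter Topology MeasureTheory

theorem core {X Q : Type} [MeasurableSpace X] [StandardBorelSpace X] [TopologicalSpace Q]
    [CompactSpace Q] [PolishSpace Q] [MeasurableSpace Q] [BorelSpace Q]
    (E : X → X → Prop) (hE : Equivalence E) (s : ℕ → X → X) (hs : ∀ n, Measurable (s n))
    (hinv : ∀ n x, s n (s n x) = x) (hsE : ∀ x y, E x y ↔ ∃ n, s n x = y)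
    (j : (ℕ → Bool) → X) (hj : Measurable j) (hji : Function.Injective j)
    (hjE : ∀ a b, E (j a) (j b) ↔ ∃ N, ∀ n, N ≤ n → a n = b n)
    (β : X → D) (hβ : Measurable fun x => io (β x)) (f : D → X → X)
    (hfE : ∀ d x, E x (f d x)) (hfβ : ∀ d x, β (f d x) = d) (hff : ∀ x, f (β x) x = x)
    (e : X → Q) (hem : Measurable e) (hei : Function.Injective e)
    (hcount : (range e)ᶜ.Countable) (q0 : Q) (hq0 : q0 ∉ range e)
    (u : ℕ → D → Q) (K : D → Set Q) (hK : ∀ d, IsClosed (K d))
    (hKe : ∀ d x, e x ∈ K d ↔ β x = d) (hKq : ∀ d, q0 ∈ K d)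
    (hu : ∀ n d, u n d ∈ K d)
    (hud : ∀ d, ∀ q ∈ K d, ∀ m, ∀ W ∈ 𝓝 q, ∃ n, m ≤ n ∧ u n d ∈ W)
    (Cl : D → D → Set (Q × Q)) (hCl : ∀ d d', IsClosed (Cl d d'))
    (hClc : ∀ d d' a b, (a, b) ∈ Cl d d' → (∃ x, a = e (f d x) ∧ b = e (f d' x)) ∨
      (a ∉ range e ∧ b ∉ range e))
    (hClu : ∀ n d d', (u n d, u n d') ∈ Cl d d')
    (Ct : D → D → ℕ → Set (Q × Q)) (hCt : ∀ d d' n, IsClosed (Ct d d' n))
    (hCtc : ∀ d d' n a b, (a, b) ∈ Ct d d' n → (∃ x, a = e (f d x) ∧ b = e (f d' (s n x))) ∨
      (a ∉ range e ∧ b ∉ range e))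
    (hCtm : ∀ d d' n x, (e (f d x), e (f d' (s n x))) ∈ Ct d d' n) :
    ∃ (Y : Type) (_ : TopologicalSpace Y) (_ : PolishSpace Y) (_ : MeasurableSpace Y)
      (_ : BorelSpace Y) (F : X ≃ᵐ Y),
      (∃ K : ℕ → Set (Y × Y), (∀ n, IsCompact (K n)) ∧
        {p : Y × Y | E (F.symm p.1) (F.symm p.2)} = ⋃ n, K n) ∧
      ∀ y, Dense {z | E (F.symm y) (F.symm z)} := by
  classical
  have hpolC : PolishSpace (C × (D → Q)) := {}
  let Y : Type := Ys u K
  have hclosed := Ys_closed u K hK
  have hpolY : PolishSpace Y := hclosed.polishSpace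
  have hsbY : StandardBorelSpace Y := hclosed.measurableSet.standardBorel
  -- the embedding of `X`
  have hΨmem : ∀ x, G u (io (β x)) (e x) ∈ Ys u K := fun x =>
    G_mem hu _ _ fun d hd => (hKe d x).2 (io_inj hd).symm
  let Ψ : X → Y := fun x => ⟨G u (io (β x)) (e x), hΨmem x⟩
  have hΨm : Measurable Ψ := ((G_meas u).comp (hβ.prodMk hem)).subtype_mk
  have hΨc : ∀ x, (Ψ x).1.1 = io (β x) := fun x => rfl
  have hΨk : ∀ x, (Ψ x).1.2 (β x) = e x := fun x => by simp only [Ψ, G, if_true]
  have hΨi : Function.Injective Ψ := by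
    intro x x' h
    have h1 : io (β x) = io (β x') := congrArg (fun y : Y => y.1.1) h
    have h2 := io_inj h1
    have h3 := hΨk x
    rw [h, h2, hΨk] at h3
    exact (hei h3).symm
  have hΨe : MeasurableEmbedding Ψ := hΨm.measurableEmbedding hΨi
  have hΨr : MeasurableSet (range Ψ) := hΨe.measurableSet_range
  -- description of the range
  have hr1 : ∀ (y : Y) (d : D), y.1.1 = io d → (y ∈ range Ψ ↔ y.1.2 d ∈ range e) := by
    intro y d hy
    constructor
    · rintro ⟨x, rfl⟩
      have h2 : β x = d := io_inj hy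
      rw [← h2, hΨk]
      exact mem_range_self x
    · rintro ⟨x, hx⟩
      refine ⟨x, Subtype.ext ?_⟩
      have h1 : β x = d := (hKe d x).1 (by rw [hx]; exact (y.2 d).1)
      rw [eq_G y.1 y.2 d hy, ← hx, ← h1]
  have hr2 : ∀ y : Y, y.1.1 ∉ range io → y ∉ range Ψ := by
    rintro _ h ⟨x, rfl⟩
    exact h ⟨β x, rfl⟩
  -- the rest
  let W : Type := ((range Ψ)ᶜ : Set Y)
  have hsbW : StandardBorelSpace W := hΨr.compl.standardBorel
  obtain ⟨r0, hr0⟩ := Set.countable_iff_exists_injOn.1 hcount
  let rem : W → ℕ := fun w => if h : ∃ d, io d = w.1.1.1 then r0 (w.1.1.2 h.choose) else 0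
  have hrem : ∀ (w : W) (d : D), w.1.1.1 = io d → rem w = r0 (w.1.1.2 d) := by
    intro w d hd
    have h : ∃ d, io d = w.1.1.1 := ⟨d, hd.symm⟩
    have h1 : h.choose = d := io_inj (h.choose_spec.trans hd)
    simp only [rem, dif_pos h]
    rw [h1]
  have hrem0 : ∀ w : W, w.1.1.1 ∉ range io → rem w = 0 := by
    intro w hd
    have h : ¬ ∃ d, io d = w.1.1.1 := hd
    simp only [rem, dif_neg h]
  -- the countable set
  have hWDc : {y : Y | y.1.1 ∈ range io ∧ y ∉ range Ψ}.Countable := by
    have h1 : (⋃ d : D, (G u (io d)) '' (range e)ᶜ).Countable :=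
      countable_iUnion fun d => hcount.image _
    refine (h1.preimage_of_injOn (f := fun y : Y => y.1) Subtype.val_injective.injOn).mono ?_
    rintro y ⟨⟨d, hd⟩, hy⟩
    refine mem_iUnion.2 ⟨d, y.1.2 d, ?_, (eq_G y.1 y.2 d hd.symm).symm⟩
    intro h
    exact hy ((hr1 y d hd.symm).2 h)
  have hWc : {w : W | w.1.1.1 ∈ range io}.Countable := by
    refine (hWDc.preimage_of_injOn (f := fun w : W => w.1) Subtype.val_injective.injOn).mono ?_
    intro w hw
    exact ⟨hw, w.2⟩
  have hremm : Measurable rem := by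
    refine measurable_to_countable' fun n => ?_
    have h1 : MeasurableSet ({w : W | w.1.1.1 ∈ range io} ∩ rem ⁻¹' {n}) :=
      (hWc.mono inter_subset_left).measurableSet
    have h2 : MeasurableSet {w : W | w.1.1.1 ∈ range io} := hWc.measurableSet
    by_cases hn : n = 0
    · have : rem ⁻¹' {n} = ({w : W | w.1.1.1 ∈ range io} ∩ rem ⁻¹' {n}) ∪
          {w : W | w.1.1.1 ∈ range io}ᶜ := by
        ext w
        simp only [mem_union, mem_inter_iff, mem_compl_iff, mem_ofPred_eq, mem_preimage,
          mem_singleton_iff]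
        have h3 : w.1.1.1 ∉ range io → rem w = n := fun hw => by rw [hn]; exact hrem0 w hw
        tauto
      rw [this]
      exact h1.union h2.compl
    · have : rem ⁻¹' {n} = ({w : W | w.1.1.1 ∈ range io} ∩ rem ⁻¹' {n}) := by
        ext w
        simp only [mem_inter_iff, mem_ofPred_eq, mem_preimage, mem_singleton_iff]
        have h3 : w.1.1.1 ∉ range io → rem w ≠ n := fun hw => by
          rw [hrem0 w hw]; exact fun h => hn h.symm
        tauto
      rw [this]
      exact h1
  have hWcm : Measurable fun w : W => w.1.1.1 :=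
    measurable_fst.comp (measurable_subtype_coe.comp measurable_subtype_coe)
  let jj : W → ℕ := fun w => Nat.pair w.1.1.1.1 (rem w)
  have hjm : Measurable jj := by
    have : Measurable fun w : W => (w.1.1.1.1, rem w) :=
      (measurable_fst.comp hWcm).prodMk hremm
    exact (measurable_of_countable (fun p : ℕ × ℕ => Nat.pair p.1 p.2)).comp this
  let c : W → ℕ → ℕ := fun w n =>
    Nat.casesOn n (jj w) (fun k => if w.1.1.1.2 k then 1 else 0)
  have hc0 : ∀ w, c w 0 = jj w := fun w => rfl
  have hc1 : ∀ w k, c w (k + 1) = if w.1.1.1.2 k then 1 else 0 := fun w k => rfl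
  have hbool : ∀ b b' : Bool, ((if b then 1 else 0 : ℕ) = if b' then 1 else 0) ↔ b = b' := by
    intro b b'
    cases b <;> cases b' <;> simp
  have hcinj : Function.Injective c := by
    intro w w' h
    have h0 := congrFun h 0
    rw [hc0, hc0] at h0
    obtain ⟨h1, h2⟩ := Nat.pair_eq_pair.1 h0
    have h3 : w.1.1.1.2 = w'.1.1.1.2 := by
      funext k
      have := congrFun h (k + 1)
      rw [hc1, hc1, hbool] at this
      exact this
    have h4 : w.1.1.1 = w'.1.1.1 := Prod.ext h1 h3
    refine Subtype.ext (Subtype.ext ?_)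
    by_cases hw : w.1.1.1 ∈ range io
    · obtain ⟨d, hd⟩ := hw
      have hd' : w'.1.1.1 = io d := by rw [← h4, hd]
      rw [hrem w d hd.symm, hrem w' d hd'] at h2
      have h5 : w.1.1.2 d ∉ range e := fun h => w.2 ((hr1 w.1 d hd.symm).2 h)
      have h6 : w'.1.1.2 d ∉ range e := fun h => w'.2 ((hr1 w'.1 d hd').2 h)
      rw [eq_G w.1.1 w.1.2 d hd.symm, eq_G w'.1.1 w'.1.2 d hd', hr0 h5 h6 h2]
    · rw [eq_G' w.1.1 w.1.2 hw q0, eq_G' w'.1.1 w'.1.2 (by rw [← h4]; exact hw) q0, h4]
  have hPmem : ∀ c : C, G u c q0 ∈ Ys u K := fun c => G_mem hu _ _ fun d _ => hKq d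
  let P0 : C → Y := fun c => ⟨G u c q0, hPmem c⟩
  have hP0 : ∀ c, P0 c ∉ range Ψ := by
    intro c h
    by_cases hc : c ∈ range io
    · obtain ⟨d, hd⟩ := hc
      have h1 := (hr1 (P0 c) d hd.symm).1 h
      have h2 : (P0 c).1.2 d = q0 := by simp only [P0, G, if_pos hd]
      rw [h2] at h1
      exact hq0 h1
    · exact hr2 _ hc h
  let P : C → W := fun c => ⟨P0 c, hP0 c⟩
  have hPm : Measurable P := by
    have : Measurable fun c : C => G u c q0 :=
      (G_meas u).comp (measurable_id.prodMk measurable_const)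
    exact (this.subtype_mk).subtype_mk
  have hPc : ∀ c, (P c).1.1.1 = c := fun c => rfl
  obtain ⟨h, hh⟩ := Pool.Agent.TH635.CRAbs.absorb s hs hinv E hE hsE j hj hji hjE
    (fun w w' : W => EE w.1.1.1.2 w'.1.1.1.2) c
    (by
      rw [measurable_pi_iff]
      rintro (_ | k)
      · exact hjm
      · have h1 : Measurable fun w : W => w.1.1.1.2 k :=
          (measurable_pi_apply k).comp (measurable_snd.comp hWcm)
        exact (measurable_of_countable (fun b : Bool => if b then 1 else 0)).comp h1)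
    hcinj
    (by
      intro w w'
      constructor
      · rintro ⟨N, hN⟩
        refine ⟨N + 1, fun n hn => ?_⟩
        obtain ⟨k, rfl⟩ : ∃ k, n = k + 1 := ⟨n - 1, by omega⟩
        rw [hc1, hc1, hbool]
        exact hN k (by omega)
      · rintro ⟨N, hN⟩
        refine ⟨N, fun n hn => ?_⟩
        have := hN (n + 1) (by omega)
        rwa [hc1, hc1, hbool] at this)
    (fun w n => P (Nat.pair (jj w) n, w.1.1.1.2))
    (by
      intro n
      refine hPm.comp (Measurable.prodMk ?_ (measurable_snd.comp hWcm))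
      exact (measurable_of_countable (fun a : ℕ => Nat.pair a n)).comp hjm)
    (by
      intro w n
      exact ee_refl _)
    (by
      intro w w' n n' h
      have h1 : (Nat.pair (jj w) n, w.1.1.1.2) = (Nat.pair (jj w') n', w'.1.1.1.2) :=
        congrArg (fun w : W => w.1.1.1) h
      simp only [Prod.mk.injEq] at h1
      obtain ⟨h2, h3⟩ := Nat.pair_eq_pair.1 h1.1
      refine ⟨hcinj (funext fun k => ?_), h3⟩
      rcases k with _ | k
      · exact h2
      · rw [hc1, hc1, h1.2])
  -- the isomorphism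
  let g0 : X ⊕ W → Y := Sum.elim Ψ Subtype.val
  have hg0m : Measurable g0 := measurable_fun_sum hΨm measurable_subtype_coe
  have hg0b : Function.Bijective g0 := by
    constructor
    · rintro (x | w) (x' | w') hxw
      · exact congrArg _ (hΨi hxw)
      · exact absurd ⟨x, hxw⟩ w'.2
      · exact absurd ⟨x', hxw.symm⟩ w.2
      · exact congrArg _ (Subtype.ext hxw)
    · intro y
      by_cases hy : y ∈ range Ψ
      · obtain ⟨x, hx⟩ := hy
        exact ⟨Sum.inl x, hx⟩
      · exact ⟨Sum.inr ⟨y, hy⟩, rfl⟩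
  let e0 : X ⊕ W ≃ Y := Equiv.ofBijective g0 hg0b
  let e1 : X ⊕ W ≃ᵐ Y :=
    { e0 with
      measurable_toFun := hg0m
      measurable_invFun := by
        intro S hS
        have h1 : MeasurableSet (Ψ '' (Sum.inl ⁻¹' S)) :=
          hΨe.measurableSet_image.2 (measurable_inl hS)
        have h1' : MeasurableSet (Subtype.val '' ((Sum.inr : W → X ⊕ W) ⁻¹' S)) :=
          (MeasurableEmbedding.subtype_coe hΨr.compl).measurableSet_image.2 (measurable_inr hS)
        have h2 : e0.symm ⁻¹' S = Ψ '' (Sum.inl ⁻¹' S) ∪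
            Subtype.val '' ((Sum.inr : W → X ⊕ W) ⁻¹' S) := by
          ext y
          constructor
          · intro h
            have h3 : e0.symm y ∈ S := h
            have h4 : g0 (e0.symm y) = y := e0.apply_symm_apply y
            rcases h5 : e0.symm y with x | w
            · rw [h5] at h3 h4
              exact Or.inl ⟨x, h3, h4⟩
            · rw [h5] at h3 h4
              exact Or.inr ⟨w, h3, h4⟩
          · rintro (⟨x, h, rfl⟩ | ⟨w, h, rfl⟩)
            · have : e0.symm (Ψ x) = Sum.inl x := e0.symm_apply_apply (Sum.inl x)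
              rw [mem_preimage, this]
              exact h
            · have : e0.symm w.1 = Sum.inr w := e0.symm_apply_apply (Sum.inr w)
              rw [mem_preimage, this]
              exact h
        show MeasurableSet (e0.symm ⁻¹' S)
        rw [h2]
        exact h1.union h1' }
  have he1l : ∀ x, e1.symm (Ψ x) = Sum.inl x := fun x => e0.symm_apply_apply (Sum.inl x)
  have he1r : ∀ w : W, e1.symm w.1 = Sum.inr w := fun w => e0.symm_apply_apply (Sum.inr w)
  let F : X ≃ᵐ Y := h.symm.trans e1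
  have hF : ∀ y y' : Y, E (F.symm y) (F.symm y') ↔
      Sum.LiftRel E (fun w w' : W => EE w.1.1.1.2 w'.1.1.1.2) (e1.symm y) (e1.symm y') := by
    intro y y'
    rw [hh]
    rfl
  have F1 : ∀ x x', E (F.symm (Ψ x)) (F.symm (Ψ x')) ↔ E x x' := by
    intro x x'
    rw [hF, he1l, he1l, Sum.liftRel_inl_inl]
  have F2 : ∀ y y' : Y, y ∉ range Ψ → y' ∉ range Ψ →
      (E (F.symm y) (F.symm y') ↔ EE y.1.1.2 y'.1.1.2) := by
    intro y y' hy hy'
    rw [hF, he1r ⟨y, hy⟩, he1r ⟨y', hy'⟩, Sum.liftRel_inr_inr]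
  have F3 : ∀ (x : X) (y : Y), y ∉ range Ψ → ¬ E (F.symm (Ψ x)) (F.symm y) := by
    intro x y hy h
    rw [hF, he1l, he1r ⟨y, hy⟩] at h
    cases h
  have F4 : ∀ (x : X) (y : Y), y ∉ range Ψ → ¬ E (F.symm y) (F.symm (Ψ x)) := by
    intro x y hy h
    exact F3 x y hy (hE.symm h)
  refine ⟨Y, inferInstance, hpolY, inferInstance, inferInstance, F, ?_, ?_⟩
  · -- compact pieces
    let WD : Set Y := {y : Y | y.1.1 ∈ range io ∧ y ∉ range Ψ}
    have hWDc' : Countable WD := hWDc.to_subtype
    let I : Type := (ℕ × ℕ × Finset ℕ) ⊕ ((D × D × ℕ) ⊕ (WD × WD))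
    have hIc : Countable I := inferInstance
    let κ1 : ℕ × ℕ × Finset ℕ → Set (Y × Y) := fun t => {p | p.1.1.1.1 = t.1 ∧ p.2.1.1.1 = t.2.1 ∧
      p.2.1.1.2 = xr t.2.2 p.1.1.1.2 ∧ ∀ H : Finset ℕ,
        (p.1.1.2 (t.1, H), p.2.1.2 (t.2.1, symmDiff H t.2.2)) ∈
          Cl (t.1, H) (t.2.1, symmDiff H t.2.2)}
    let κ2 : D × D × ℕ → Set (Y × Y) := fun t => {p | p.1.1.1 = io t.1 ∧ p.2.1.1 = io t.2.1 ∧
      (p.1.1.2 t.1, p.2.1.2 t.2.1) ∈ Ct t.1 t.2.1 t.2.2}
    let κ3 : WD × WD → Set (Y × Y) := fun t => {(t.1.1, t.2.1)}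
    let κ : I → Set (Y × Y) := Sum.elim κ1 (Sum.elim κ2 κ3)
    have hcc : Continuous fun y : Y => y.1.1 := continuous_fst.comp continuous_subtype_val
    have hck : ∀ d, Continuous fun y : Y => y.1.2 d := fun d =>
      (continuous_apply d).comp (continuous_snd.comp continuous_subtype_val)
    have hκ1 : ∀ t, IsCompact (κ1 t) := by
      intro t
      have h1 := (compact_level (u := u) hK t.1).prod (compact_level (u := u) hK t.2.1)
      refine h1.of_isClosed_subset ?_ fun p hp => ⟨hp.1, hp.2.1⟩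
      have e1 : IsClosed {p : Y × Y | p.1.1.1.1 = t.1} :=
        isClosed_eq (continuous_fst.comp (hcc.comp continuous_fst)) continuous_const
      have e2 : IsClosed {p : Y × Y | p.2.1.1.1 = t.2.1} :=
        isClosed_eq (continuous_fst.comp (hcc.comp continuous_snd)) continuous_const
      have e3 : IsClosed {p : Y × Y | p.2.1.1.2 = xr t.2.2 p.1.1.1.2} :=
        isClosed_eq (continuous_snd.comp (hcc.comp continuous_snd))
          ((xr_cont _).comp (continuous_snd.comp (hcc.comp continuous_fst)))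
      have e4 : IsClosed {p : Y × Y | ∀ G : Finset ℕ,
          (p.1.1.2 (t.1, G), p.2.1.2 (t.2.1, symmDiff G t.2.2)) ∈
            Cl (t.1, G) (t.2.1, symmDiff G t.2.2)} := by
        rw [ofPred_forall]
        refine isClosed_iInter fun G => ?_
        exact (hCl _ _).preimage (((hck _).comp continuous_fst).prodMk
          ((hck _).comp continuous_snd))
      exact e1.inter (e2.inter (e3.inter e4))
    have hκ2 : ∀ t, IsCompact (κ2 t) := by
      intro t
      have h1 := (compact_level (u := u) hK t.1.1).prod (compact_level (u := u) hK t.2.1.1)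
      refine h1.of_isClosed_subset ?_ fun p hp => ⟨?_, ?_⟩
      · have e1 : IsClosed {p : Y × Y | p.1.1.1 = io t.1} :=
          isClosed_eq (hcc.comp continuous_fst) continuous_const
        have e2 : IsClosed {p : Y × Y | p.2.1.1 = io t.2.1} :=
          isClosed_eq (hcc.comp continuous_snd) continuous_const
        have e3 : IsClosed {p : Y × Y | (p.1.1.2 t.1, p.2.1.2 t.2.1) ∈ Ct t.1 t.2.1 t.2.2} :=
          (hCt _ _ _).preimage (((hck _).comp continuous_fst).prodMk
            ((hck _).comp continuous_snd))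
        exact e1.inter (e2.inter e3)
      · show p.1.1.1.1 = t.1.1
        rw [hp.1]
        rfl
      · show p.2.1.1.1 = t.2.1.1
        rw [hp.2.1]
        rfl
    have hκ : ∀ i, IsCompact (κ i) := by
      rintro (t | t | t)
      · exact hκ1 t
      · exact hκ2 t
      · exact isCompact_singleton
    have hIne : Nonempty I := ⟨Sum.inl (0, 0, ∅)⟩
    obtain ⟨sur, hsur⟩ := exists_surjective_nat I
    refine ⟨fun n => κ (sur n), fun n => hκ _, ?_⟩
    have hun : (⋃ n, κ (sur n)) = ⋃ i, κ i := hsur.iUnion_comp κ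
    rw [hun]
    ext ⟨y, y'⟩
    constructor
    · intro hyy
      have hyy' : E (F.symm y) (F.symm y') := hyy
      rw [mem_iUnion]
      by_cases hy : y ∈ range Ψ <;> by_cases hy' : y' ∈ range Ψ
      · obtain ⟨x, rfl⟩ := hy
        obtain ⟨x', rfl⟩ := hy'
        rw [F1] at hyy'
        obtain ⟨n, rfl⟩ := (hsE _ _).1 hyy'
        refine ⟨Sum.inr (Sum.inl (β x, β (s n x), n)), rfl, rfl, ?_⟩
        show ((Ψ x).1.2 (β x), (Ψ (s n x)).1.2 (β (s n x))) ∈ _
        rw [hΨk, hΨk]
        have := hCtm (β x) (β (s n x)) n x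
        rw [hff, hff] at this
        exact this
      · obtain ⟨x, rfl⟩ := hy
        exact absurd hyy' (F3 x y' hy')
      · obtain ⟨x', rfl⟩ := hy'
        exact absurd hyy' (F4 x' y hy)
      · rw [F2 y y' hy hy'] at hyy'
        by_cases hyo : y.1.1 ∈ range io
        · have hyo' : y'.1.1 ∈ range io := by
            rw [io_range] at hyo ⊢
            exact ee_trans (ee_symm hyy') hyo
          exact ⟨Sum.inr (Sum.inr (⟨y, hyo, hy⟩, ⟨y', hyo', hy'⟩)), rfl⟩
        · have hyo' : y'.1.1 ∉ range io := by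
            intro h'
            apply hyo
            rw [io_range] at h' ⊢
            exact ee_trans hyy' h'
          obtain ⟨N, hN⟩ := hyy'
          let g : Finset ℕ := (Finset.range N).filter fun n => y.1.1.2 n ≠ y'.1.1.2 n
          have hg : y'.1.1.2 = xr g y.1.1.2 := by
            funext n
            simp only [xr, g, Finset.mem_filter, Finset.mem_range]
            by_cases hn : n < N
            · cases h1 : y.1.1.2 n <;> cases h2 : y'.1.1.2 n <;> simp [hn]
            · rw [hN n (by omega)]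
              simp [hn]
          refine ⟨Sum.inl (y.1.1.1, y'.1.1.1, g), rfl, rfl, hg, ?_⟩
          intro G
          show (y.1.2 (y.1.1.1, G), y'.1.2 (y'.1.1.1, symmDiff G g)) ∈ _
          have a1 : y.1.1 ≠ io (y.1.1.1, G) := fun h => hyo ⟨_, h.symm⟩
          have a2 : y'.1.1 ≠ io (y'.1.1.1, symmDiff G g) := fun h => hyo' ⟨_, h.symm⟩
          rw [(y.2 _).2 a1, (y'.2 _).2 a2]
          unfold ph
          have a3 : v y'.1.1 (io (y'.1.1.1, symmDiff G g)) = v y.1.1 (io (y.1.1.1, G)) := by
            rw [← xr_io y.1.1.1 y'.1.1.1 G g]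
            have := v_xr y.1.1.1 y'.1.1.1 y.1.1.2 (io (y.1.1.1, G)).2 g
            rw [← hg] at this
            exact this
          rw [a3]
          exact hClu _ _ _
    · rw [mem_iUnion]
      rintro ⟨i, hi⟩
      show E (F.symm y) (F.symm y')
      rcases i with ⟨a, a', g⟩ | ⟨d, d', n⟩ | ⟨w, w'⟩
      · obtain ⟨h1, h2, h3, h4⟩ := hi
        have h1' : y.1.1.1 = a := h1
        have h2' : y'.1.1.1 = a' := h2
        have h3' : y'.1.1.2 = xr g y.1.1.2 := h3
        have hee : EE y.1.1.2 y'.1.1.2 := by rw [h3']; exact xr_ee g _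
        by_cases hyo : y.1.1 ∈ range io
        · obtain ⟨⟨b, H⟩, hd⟩ := hyo
          have hb : b = a := by
            have := congrArg Prod.fst hd
            rw [h1'] at this
            exact this
          subst hb
          have hd' : y'.1.1 = io (a', symmDiff H g) := by
            rw [← xr_io b a' H g]
            refine Prod.ext h2' ?_
            show y'.1.1.2 = xr g (io (b, H)).2
            rw [h3', hd]
          have h5 : (y.1.2 (b, H), y'.1.2 (a', symmDiff H g)) ∈ Cl (b, H) (a', symmDiff H g) :=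
            h4 H
          rcases hClc _ _ _ _ h5 with ⟨x, hx1, hx2⟩ | ⟨hn1, hn2⟩
          · have e1 : y = Ψ (f (b, H) x) := by
              apply Subtype.ext
              rw [eq_G y.1 y.2 _ hd.symm, hx1]
              show _ = G u (io (β (f (b, _) x))) _
              rw [hfβ]
            have e2 : y' = Ψ (f (a', symmDiff H g) x) := by
              apply Subtype.ext
              rw [eq_G y'.1 y'.2 _ hd', hx2]
              show _ = G u (io (β (f (a', _) x))) _
              rw [hfβ]
            rw [e1, e2, F1]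
            exact hE.trans (hE.symm (hfE _ x)) (hfE _ x)
          · rw [F2 y y' (fun h => hn1 ((hr1 y _ hd.symm).1 h)) (fun h => hn2 ((hr1 y' _ hd').1 h))]
            exact hee
        · have hyo' : y'.1.1 ∉ range io := by
            intro h'
            apply hyo
            rw [io_range] at h' ⊢
            exact ee_trans hee h'
          rw [F2 y y' (hr2 y hyo) (hr2 y' hyo')]
          exact hee
      · obtain ⟨h1, h2, h3⟩ := hi
        have h1' : y.1.1 = io d := h1
        have h2' : y'.1.1 = io d' := h2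
        have h5 : (y.1.2 d, y'.1.2 d') ∈ Ct d d' n := h3
        rcases hCtc _ _ _ _ _ h5 with ⟨x, hx1, hx2⟩ | ⟨hn1, hn2⟩
        · have e1 : y = Ψ (f d x) := by
            apply Subtype.ext
            rw [eq_G y.1 y.2 _ h1', hx1]
            show _ = G u (io (β (f d x))) _
            rw [hfβ]
          have e2 : y' = Ψ (f d' (s n x)) := by
            apply Subtype.ext
            rw [eq_G y'.1 y'.2 _ h2', hx2]
            show _ = G u (io (β (f d' (s n x)))) _
            rw [hfβ]
          rw [e1, e2, F1]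
          refine hE.trans (hE.symm (hfE _ x)) (hE.trans ((hsE _ _).2 ⟨n, rfl⟩) (hfE _ _))
        · rw [F2 y y' (fun h => hn1 ((hr1 y _ h1').1 h)) (fun h => hn2 ((hr1 y' _ h2').1 h))]
          have := (io_range y.1.1).1 ⟨d, h1'.symm⟩
          exact ee_trans this (ee_symm ((io_range y'.1.1).1 ⟨d', h2'.symm⟩))
      · have hi' : (y, y') = (w.1, w'.1) := hi
        simp only [Prod.mk.injEq] at hi'
        obtain ⟨rfl, rfl⟩ := hi'
        rw [F2 _ _ w.2.2 w'.2.2]
        exact ee_trans ((io_range _).1 w.2.1) (ee_symm ((io_range _).1 w'.2.1))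
  · -- density
    intro y
    rw [dense_iff_inter_open]
    intro O hO hne
    obtain ⟨c1, V, hV, hVO⟩ := open_contains hu hud O hO hne
    by_cases hy : y ∈ range Ψ
    · obtain ⟨x, rfl⟩ := hy
      obtain ⟨d, hd⟩ := dense_io c1 V hV
      refine ⟨Ψ (f d x), hVO _ ?_, ?_⟩
      · show io (β (f d x)) ∈ V
        rw [hfβ]
        exact hd
      · show E (F.symm (Ψ x)) (F.symm (Ψ (f d x)))
        rw [F1]
        exact hfE d x
    · obtain ⟨c2, hc2, hee⟩ := dense_ee c1 V hV y.1.1.2
      refine ⟨P0 c2, hVO _ hc2, ?_⟩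
      show E (F.symm y) (F.symm (P0 c2))
      rw [F2 _ _ hy (hP0 c2)]
      exact hee

end Pool.Agent.Q190.KS
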