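import Mathlib

set_option autoImplicit false

/-! # Finite-to-one retractions onto disjoint complete sections -/

namespace Pool.Agent.Q190.KS

open Set MeasureTheory

universe u

section

variable {X : Type u} (S : Set X) (s : ℕ → X → X)

open Classical in
/-- greedy matching -/
noncomputable def mt : ℕ → X → X
  | 0 => id
  | n + 1 => fun x => if mt n x = x ∧ x ∈ S ∧ s n x ∈ S ∧ mt n (s n x) = s n x then s n x
      else mt n x

theorem mt_zero (x : X) : mt S s 0 x = x := rfl

theorem mt_pos (n : ℕ) (x : X) (h : mt S s n x = x ∧ x ∈ S ∧ s n x ∈ S ∧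
    mt S s n (s n x) = s n x) : mt S s (n + 1) x = s n x := if_pos h

theorem mt_neg (n : ℕ) (x : X) (h : ¬ (mt S s n x = x ∧ x ∈ S ∧ s n x ∈ S ∧
    mt S s n (s n x) = s n x)) : mt S s (n + 1) x = mt S s n x := if_neg h

variable (hinv : ∀ n x, s n (s n x) = x)

include hinv in
theorem mt_mt (n : ℕ) (x : X) : mt S s n (mt S s n x) = x := by
  induction n generalizing x with
  | zero => rfl
  | succ n ih =>
    by_cases h : mt S s n x = x ∧ x ∈ S ∧ s n x ∈ S ∧ mt S s n (s n x) = s n x
    · rw [mt_pos S s n x h, mt_pos S s n (s n x), hinv]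
      refine ⟨h.2.2.2, h.2.2.1, ?_, ?_⟩
      · rw [hinv]; exact h.2.1
      · rw [hinv]; exact h.1
    · rw [mt_neg S s n x h, mt_neg S s n, ih]
      intro h'
      have h1 : mt S s n x = x := by
        have := h'.1
        rw [ih] at this
        exact this.symm
      rw [h1] at h'
      exact h h'

theorem mt_rel (E : X → X → Prop) (hE : Equivalence E) (hsE : ∀ n x, E x (s n x)) (n : ℕ) (x : X) :
    E x (mt S s n x) := by
  induction n generalizing x with
  | zero => exact hE.refl x
  | succ n ih =>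
    by_cases h : mt S s n x = x ∧ x ∈ S ∧ s n x ∈ S ∧ mt S s n (s n x) = s n x
    · rw [mt_pos S s n x h]; exact hsE n x
    · rw [mt_neg S s n x h]; exact ih x

theorem mt_mem (n : ℕ) (x : X) (hx : x ∈ S) : mt S s n x ∈ S := by
  induction n generalizing x with
  | zero => exact hx
  | succ n ih =>
    by_cases h : mt S s n x = x ∧ x ∈ S ∧ s n x ∈ S ∧ mt S s n (s n x) = s n x
    · rw [mt_pos S s n x h]; exact h.2.2.1
    · rw [mt_neg S s n x h]; exact ih x hx

theorem mt_persist (n : ℕ) (x : X) (h : mt S s n x ≠ x) (k : ℕ) (hk : n ≤ k) :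
    mt S s k x = mt S s n x := by
  induction k, hk using Nat.le_induction with
  | base => rfl
  | succ k hk ih =>
    rw [mt_neg S s k x, ih]
    intro h'
    rw [ih] at h'
    exact h h'.1

theorem mt_meas [MeasurableSpace X] [StandardBorelSpace X] (hS : MeasurableSet S)
    (hs : ∀ n, Measurable (s n)) (n : ℕ) : Measurable (mt S s n) := by
  induction n with
  | zero => exact measurable_id
  | succ n ih =>
    refine Measurable.ite ?_ (hs n) ih
    refine (measurableSet_eq_fun ih measurable_id).inter (hS.inter ?_)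
    exact (hS.preimage (hs n)).inter (measurableSet_eq_fun (ih.comp (hs n)) (hs n))

end

theorem exists_match {X : Type u} [MeasurableSpace X] [StandardBorelSpace X] (s : ℕ → X → X)
    (hs : ∀ n, Measurable (s n)) (hinv : ∀ n x, s n (s n x) = x) (E : X → X → Prop)
    (hE : Equivalence E) (hsE : ∀ x y, E x y ↔ ∃ n, s n x = y) (S : Set X)
    (hS : MeasurableSet S) :
    ∃ m : X → X, Measurable m ∧ (∀ x, m (m x) = x) ∧ (∀ x, E x (m x)) ∧ (∀ x ∈ S, m x ∈ S) ∧
      ∀ x ∈ S, ∀ y ∈ S, E x y → m x = x → m y = y → x = y := by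
  classical
  have h1 : ∀ x, ∃ n, mt S s n x ≠ x ∨ ∀ k, mt S s k x = x := by
    intro x
    by_cases h : ∀ k, mt S s k x = x
    · exact ⟨0, Or.inr h⟩
    · push Not at h
      obtain ⟨k, hk⟩ := h
      exact ⟨k, Or.inl hk⟩
  have hmm := mt_meas S s hS hs
  have hEs : ∀ n x, E x (s n x) := fun n x => (hsE _ _).2 ⟨n, rfl⟩
  let m : X → X := fun x => mt S s (Nat.find (h1 x)) x
  have hlim : ∀ x, ∃ N, ∀ k, N ≤ k → mt S s k x = m x := by
    intro x
    rcases Nat.find_spec (h1 x) with h | h
    · exact ⟨Nat.find (h1 x), fun k hk => mt_persist S s _ x h k hk⟩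
    · exact ⟨0, fun k _ => by rw [h k]; exact (h _).symm⟩
  refine ⟨m, ?_, ?_, ?_, ?_, ?_⟩
  · refine Measurable.find hmm (fun n => ?_) h1
    refine (measurableSet_eq_fun (hmm n) measurable_id).compl.union ?_
    have : {x | ∀ k, mt S s k x = x} = ⋂ k, {x | mt S s k x = x} := by
      ext x; simp
    show MeasurableSet {x | ∀ k, mt S s k x = x}
    rw [this]
    exact MeasurableSet.iInter fun k => measurableSet_eq_fun (hmm k) measurable_id
  · intro x
    obtain ⟨N, hN⟩ := hlim x
    obtain ⟨M, hM⟩ := hlim (m x)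
    rw [← hM (max N M) (le_max_right _ _), ← hN (max N M) (le_max_left _ _)]
    exact mt_mt S s hinv _ x
  · intro x
    exact mt_rel S s E hE hEs _ x
  · intro x hx
    exact mt_mem S s _ x hx
  · intro x hx y hy hxy hmx hmy
    by_contra hne
    obtain ⟨n, hn⟩ := (hsE x y).1 hxy
    obtain ⟨N, hN⟩ := hlim x
    obtain ⟨M, hM⟩ := hlim y
    have h2 : ∀ k, mt S s k x = x := by
      intro k
      by_contra h
      apply h
      have h3 := mt_persist S s k x h (max k N) (le_max_left _ _)
      rw [← h3, hN _ (le_max_right _ _), hmx]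
    have h2' : ∀ k, mt S s k y = y := by
      intro k
      by_contra h
      apply h
      have h3 := mt_persist S s k y h (max k M) (le_max_left _ _)
      rw [← h3, hM _ (le_max_right _ _), hmy]
    have h4 := mt_pos S s n x ⟨h2 n, hx, by rw [hn]; exact hy, by rw [hn]; exact h2' n⟩
    rw [h2, hn] at h4
    exact hne h4

theorem split {X : Type u} [MeasurableSpace X] [StandardBorelSpace X] (s : ℕ → X → X)
    (hs : ∀ n, Measurable (s n)) (hinv : ∀ n x, s n (s n x) = x) (E : X → X → Prop)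
    (hE : Equivalence E) (hsE : ∀ x y, E x y ↔ ∃ n, s n x = y) (S : Set X)
    (hS : MeasurableSet S) (hinf : ∀ x, {y | E x y ∧ y ∈ S}.Infinite) :
    ∃ (B : Set X) (p q : X → X), MeasurableSet B ∧ B ⊆ S ∧ Measurable p ∧ Measurable q ∧
      (∀ x, p x ∈ B) ∧ (∀ x ∈ S, q x ∈ S \ B) ∧ (∀ x, E x (p x)) ∧ (∀ x, E x (q x)) ∧
      (∀ x ∈ B, p x = x) ∧ (∀ x ∈ S \ B, q x = x) ∧ (∀ y, {x | x ∈ S ∧ p x = y}.Finite) ∧
      (∀ y, {x | x ∈ S ∧ q x = y}.Finite) ∧ ∀ x, {y | E x y ∧ y ∈ S \ B}.Infinite := by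
  classical
  obtain ⟨m, hm, hmm, hmE, hmS, hmU⟩ := exists_match s hs hinv E hE hsE S hS
  have hκ := (measurableEmbedding_embeddingReal X)
  let κ : X → ℝ := embeddingReal X
  have hκm : Measurable κ := hκ.measurable
  have hκi : Function.Injective κ := hκ.injective
  let B : Set X := {x | x ∈ S ∧ κ x < κ (m x)}
  have hB : MeasurableSet B := hS.inter (measurableSet_lt hκm (hκm.comp hm))
  have hBm : ∀ x ∈ B, m x ∉ B := by
    intro x hx hx'
    have h1 := hx.2
    have h2 := hx'.2
    rw [hmm] at h2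
    exact lt_asymm h1 h2
  have hBm' : ∀ x ∈ S, x ∉ B → m x ≠ x → m x ∈ B := by
    intro x hx hxB hne
    refine ⟨hmS x hx, ?_⟩
    rw [hmm]
    have h1 : ¬ κ x < κ (m x) := fun h => hxB ⟨hx, h⟩
    exact lt_of_le_of_ne (not_lt.1 h1) fun h => hne (hκi h)
  -- a matched point in the class
  have ht : ∀ x, ∃ i, s i x ∈ S ∧ m (s i x) ≠ s i x := by
    intro x
    by_contra hcon
    push Not at hcon
    apply hinf x
    refine Set.Subsingleton.finite ?_
    rintro y ⟨hxy, hy⟩ z ⟨hxz, hz⟩
    obtain ⟨i, rfl⟩ := (hsE _ _).1 hxy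
    obtain ⟨j, rfl⟩ := (hsE _ _).1 hxz
    exact hmU _ hy _ hz (hE.trans (hE.symm hxy) hxz) (hcon i hy) (hcon j hz)
  let t : X → X := fun x => s (Nat.find (ht x)) x
  have htm : Measurable t := by
    refine Measurable.find hs (fun n => ?_) ht
    exact (hS.preimage (hs n)).inter (measurableSet_eq_fun (hm.comp (hs n)) (hs n)).compl
  have htS : ∀ x, t x ∈ S ∧ m (t x) ≠ t x := fun x => Nat.find_spec (ht x)
  have htE : ∀ x, E x (t x) := fun x => (hsE _ _).2 ⟨_, rfl⟩
  let π : X → X := fun z => if z ∈ B then z else m z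
  have hπm : Measurable π := Measurable.ite hB measurable_id hm
  have hπB : ∀ z, z ∈ S → m z ≠ z → π z ∈ B := by
    intro z hz hne
    by_cases h : z ∈ B
    · simp only [π, if_pos h]; exact h
    · simp only [π, if_neg h]; exact hBm' z hz h hne
  have hπE : ∀ z, E z (π z) := by
    intro z
    by_cases h : z ∈ B
    · simp only [π, if_pos h]; exact hE.refl z
    · simp only [π, if_neg h]; exact hmE z
  let p : X → X := fun x => if x ∈ S ∧ m x ≠ x then π x else π (t x)
  let q : X → X := fun x => if x ∈ B then m x else x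
  have hqfin : ∀ y, {x | x ∈ S ∧ q x = y}.Finite := by
    intro y
    refine Set.Finite.subset (Set.toFinite ({y, m y} : Set X)) ?_
    rintro x ⟨hx, hxy⟩
    by_cases h : x ∈ B
    · simp only [q, if_pos h] at hxy
      right
      rw [mem_singleton_iff, ← hxy, hmm]
    · simp only [q, if_neg h] at hxy
      left; exact hxy
  have hqS : ∀ x ∈ S, q x ∈ S \ B := by
    intro x hx
    by_cases h : x ∈ B
    · simp only [q, if_pos h]
      exact ⟨hmS x hx, hBm x h⟩
    · simp only [q, if_neg h]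
      exact ⟨hx, h⟩
  have hqE : ∀ x, E x (q x) := by
    intro x
    by_cases h : x ∈ B
    · simp only [q, if_pos h]; exact hmE x
    · simp only [q, if_neg h]; exact hE.refl x
  refine ⟨B, p, q, hB, fun x hx => hx.1, ?_, ?_, ?_, hqS, ?_, hqE, ?_, ?_, ?_, hqfin, ?_⟩
  · refine Measurable.ite ?_ hπm (hπm.comp htm)
    exact hS.inter (measurableSet_eq_fun hm measurable_id).compl
  · exact Measurable.ite hB hm measurable_id
  · intro x
    by_cases h : x ∈ S ∧ m x ≠ x
    · simp only [p, if_pos h]; exact hπB x h.1 h.2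
    · simp only [p, if_neg h]; exact hπB _ (htS x).1 (htS x).2
  · intro x
    by_cases h : x ∈ S ∧ m x ≠ x
    · simp only [p, if_pos h]; exact hπE x
    · simp only [p, if_neg h]; exact hE.trans (htE x) (hπE _)
  · intro x hx
    have h : x ∈ S ∧ m x ≠ x := ⟨hx.1, fun h => by
      have := hx.2
      rw [h] at this
      exact lt_irrefl _ this⟩
    simp only [p, if_pos h, π, if_pos hx]
  · rintro x ⟨hx, hxB⟩
    simp only [q, if_neg hxB]
  · intro y
    have h1 : {x | x ∈ S ∧ p x = y} ⊆ {y, m y} ∪ {x | x ∈ S ∧ m x = x ∧ E x y} := by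
      rintro x ⟨hx, hxy⟩
      by_cases h : m x = x
      · right
        refine ⟨hx, h, ?_⟩
        rw [← hxy]
        have h' : ¬ (x ∈ S ∧ m x ≠ x) := fun h'' => h''.2 h
        simp only [p, if_neg h']
        exact hE.trans (htE x) (hπE _)
      · left
        have h' : x ∈ S ∧ m x ≠ x := ⟨hx, h⟩
        simp only [p, if_pos h', π] at hxy
        split_ifs at hxy with h2
        · left; exact hxy
        · right; rw [mem_singleton_iff, ← hxy, hmm]
    refine Set.Finite.subset ((Set.toFinite ({y, m y} : Set X)).union ?_) h1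
    refine Set.Subsingleton.finite ?_
    rintro x ⟨hx, hmx, hxy⟩ x' ⟨hx', hmx', hxy'⟩
    exact hmU x hx x' hx' (hE.trans hxy (hE.symm hxy')) hmx hmx'
  · intro x hfin
    apply hinf x
    refine Set.Finite.subset (hfin.biUnion fun y _ => hqfin y) ?_
    rintro z ⟨hxz, hz⟩
    simp only [mem_iUnion]
    exact ⟨q z, ⟨hE.trans hxz (hqE z), hqS z hz⟩, hz, rfl⟩

/-- the state of the iteration -/
structure St {X : Type u} [MeasurableSpace X] (E : X → X → Prop) where
  S : Set X
  r : X → X
  hS : MeasurableSet S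
  hr : Measurable r
  hinf : ∀ x, {y | E x y ∧ y ∈ S}.Infinite
  hrS : ∀ x, r x ∈ S
  hid : ∀ x ∈ S, r x = x
  hrE : ∀ x, E x (r x)
  hfin : ∀ y, {x | r x = y}.Finite

theorem exists_retr {X : Type u} [MeasurableSpace X] [StandardBorelSpace X] (s : ℕ → X → X)
    (hs : ∀ n, Measurable (s n)) (hinv : ∀ n x, s n (s n x) = x) (E : X → X → Prop)
    (hE : Equivalence E) (hsE : ∀ x y, E x y ↔ ∃ n, s n x = y)
    (hinf : ∀ x, {y | E x y}.Infinite) :
    ∃ (β : X → ℕ) (f : ℕ → X → X) (N : ℕ → X → ℕ), Measurable β ∧ (∀ d, Measurable (f d)) ∧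
      (∀ d, Measurable (N d)) ∧ (∀ d x, E x (f d x)) ∧ (∀ d x, β (f d x) = d) ∧
      (∀ x, f (β x) x = x) ∧ ∀ d x, ∃ i ≤ N d (f d x), s i (f d x) = x := by
  classical
  choose B p q hB hBS hp hq hpB hqS hpE hqE hpid hqid hpf hqf hinf' using
    fun (σ : St E) => split s hs hinv E hE hsE σ.S σ.hS σ.hinf
  let nx : St E → St E := fun σ =>
    { S := σ.S \ B σ
      r := fun x => q σ (σ.r x)
      hS := σ.hS.diff (hB σ)
      hr := (hq σ).comp σ.hr
      hinf := hinf' σ
      hrS := fun x => hqS σ _ (σ.hrS x)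
      hid := fun x hx => by rw [σ.hid x hx.1, hqid σ x hx]
      hrE := fun x => hE.trans (σ.hrE x) (hqE σ _)
      hfin := fun y => by
        refine Set.Finite.subset ((hqf σ y).biUnion fun z _ => σ.hfin z) ?_
        intro x hx
        simp only [mem_iUnion]
        exact ⟨σ.r x, ⟨σ.hrS x, hx⟩, rfl⟩ }
  let σ0 : St E :=
    { S := univ
      r := id
      hS := MeasurableSet.univ
      hr := measurable_id
      hinf := fun x => by
        have : {y | E x y ∧ y ∈ univ} = {y | E x y} := by ext y; simp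
        rw [this]; exact hinf x
      hrS := fun x => mem_univ _
      hid := fun x _ => rfl
      hrE := fun x => hE.refl x
      hfin := fun y => by
        refine Set.Subsingleton.finite ?_
        intro a ha b hb
        have h1 : a = y := ha
        have h2 : b = y := hb
        rw [h1, h2] }
  let σ : ℕ → St E := fun n => Nat.rec σ0 (fun _ τ => nx τ) n
  have hσ : ∀ n, σ (n + 1) = nx (σ n) := fun n => rfl
  have hσS : ∀ n, (σ (n + 1)).S = (σ n).S \ B (σ n) := fun n => rfl
  have hmono : ∀ m n, m ≤ n → (σ n).S ⊆ (σ m).S := by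
    intro m n hmn
    induction n, hmn using Nat.le_induction with
    | base => exact Subset.rfl
    | succ n hn ih => exact (by rw [hσS]; exact diff_subset : (σ (n + 1)).S ⊆ (σ n).S).trans ih
  have hdisj : ∀ m n x, m < n → x ∈ B (σ m) → x ∉ B (σ n) := by
    intro m n x hmn hxm hxn
    have h1 := hmono (m + 1) n hmn (hBS _ hxn)
    rw [hσS] at h1
    exact h1.2 hxm
  have hdisj' : ∀ m n x, x ∈ B (σ m) → x ∈ B (σ n) → m = n := by
    intro m n x h1 h2
    rcases lt_trichotomy m n with h | h | h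
    · exact absurd h2 (hdisj m n x h h1)
    · exact h
    · exact absurd h1 (hdisj n m x h h2)
  have hβ : ∀ x, ∃ n, x ∈ B (σ n) ∨ ∀ k, x ∉ B (σ k) := by
    intro x
    by_cases h : ∀ k, x ∉ B (σ k)
    · exact ⟨0, Or.inr h⟩
    · push Not at h
      obtain ⟨k, hk⟩ := h
      exact ⟨k, Or.inl hk⟩
  let β : X → ℕ := fun x => Nat.find (hβ x)
  have hβ0 : ∀ x, (∀ k, x ∉ B (σ k)) → β x = 0 := by
    intro x h
    exact (Nat.find_eq_zero (hβ x)).2 (Or.inr h)
  have hβn : ∀ x n, x ∈ B (σ n) → β x = n := by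
    intro x n h
    rcases Nat.find_spec (hβ x) with h1 | h1
    · exact hdisj' _ _ x h1 h
    · exact absurd h (h1 n)
  have hUm : MeasurableSet {x | ∀ k, x ∉ B (σ k)} := by
    have : {x | ∀ k, x ∉ B (σ k)} = ⋂ k, (B (σ k))ᶜ := by ext x; simp
    rw [this]
    exact MeasurableSet.iInter fun k => (hB _).compl
  let f : ℕ → X → X := fun d x => if d = 0 ∧ ∀ k, x ∉ B (σ k) then x else p (σ d) ((σ d).r x)
  have hfm : ∀ d, Measurable (f d) := by
    intro d
    refine Measurable.ite ?_ measurable_id ((hp _).comp (σ d).hr)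
    exact (MeasurableSet.const _).inter hUm
  have hfE : ∀ d x, E x (f d x) := by
    intro d x
    by_cases h : d = 0 ∧ ∀ k, x ∉ B (σ k)
    · simp only [f, if_pos h]; exact hE.refl x
    · simp only [f, if_neg h]; exact hE.trans ((σ d).hrE x) (hpE _ _)
  have hffin : ∀ d y, {x | f d x = y}.Finite := by
    intro d y
    refine Set.Finite.subset ((Set.finite_singleton y).union
      ((hpf (σ d) y).biUnion fun z _ => (σ d).hfin z)) ?_
    intro x hx
    by_cases h : d = 0 ∧ ∀ k, x ∉ B (σ k)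
    · left
      have hx' : f d x = y := hx
      simp only [f, if_pos h] at hx'
      exact hx'
    · right
      have hx' : f d x = y := hx
      simp only [f, if_neg h] at hx'
      simp only [mem_iUnion]
      exact ⟨(σ d).r x, ⟨(σ d).hrS x, hx'⟩, rfl⟩
  have hN : ∀ d y, ∃ n, ∀ m, f d (s m y) = y → ∃ i ≤ n, s i y = s m y := by
    intro d y
    have h1 : ∀ x, ∃ i, f d x = y → s i y = x := by
      intro x
      by_cases h : f d x = y
      · have h2 := hfE d x
        rw [h] at h2
        obtain ⟨i, hi⟩ := (hsE _ _).1 (hE.symm h2)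
        exact ⟨i, fun _ => hi⟩
      · exact ⟨0, fun h' => absurd h' h⟩
    choose i hi using h1
    obtain ⟨n, hn⟩ := ((hffin d y).image i).bddAbove
    refine ⟨n, fun m hm => ⟨i (s m y), hn ⟨_, hm, rfl⟩, hi _ hm⟩⟩
  let N : ℕ → X → ℕ := fun d y => Nat.find (hN d y)
  refine ⟨β, f, N, ?_, hfm, ?_, hfE, ?_, ?_, ?_⟩
  · refine measurable_find hβ fun k => ?_
    exact (hB _).union hUm
  · intro d
    refine measurable_find (hN d) fun n => ?_
    have : {y | ∀ m, f d (s m y) = y → ∃ i ≤ n, s i y = s m y} =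
        ⋂ m, ({y | f d (s m y) = y}ᶜ ∪ ⋃ i, ⋃ (_ : i ≤ n), {y | s i y = s m y}) := by
      ext y
      simp only [mem_ofPred_eq, mem_iInter, mem_union, mem_compl_iff, mem_iUnion, imp_iff_not_or,
        exists_prop]
    rw [this]
    refine MeasurableSet.iInter fun m => ?_
    refine (measurableSet_eq_fun ((hfm d).comp (hs m)) measurable_id).compl.union ?_
    exact MeasurableSet.iUnion fun i => MeasurableSet.iUnion fun _ =>
      measurableSet_eq_fun (hs i) (hs m)
  · intro d x
    by_cases h : d = 0 ∧ ∀ k, x ∉ B (σ k)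
    · simp only [f, if_pos h]
      rw [hβ0 x h.2, h.1]
    · simp only [f, if_neg h]
      exact hβn _ _ (hpB _ _)
  · intro x
    by_cases h : ∀ k, x ∉ B (σ k)
    · have h1 : β x = 0 ∧ ∀ k, x ∉ B (σ k) := ⟨hβ0 x h, h⟩
      simp only [f, if_pos h1]
    · have h1 : ¬ (β x = 0 ∧ ∀ k, x ∉ B (σ k)) := fun h' => h h'.2
      push Not at h
      obtain ⟨k, hk⟩ := h
      simp only [f, if_neg h1]
      rw [hβn x k hk, (σ k).hid x (hBS _ hk), hpid _ x hk]
  · intro d x
    obtain ⟨m, hm⟩ := (hsE _ _).1 (hE.symm (hfE d x))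
    obtain ⟨i, hi, h⟩ := Nat.find_spec (hN d (f d x)) m (by rw [hm])
    exact ⟨i, hi, h.trans hm⟩

end Pool.Agent.Q190.KS
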