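import Mathlib
import Pool.Agent.Q190.KS.Core
import Pool.Agent.Q190.KS.Split
import Pool.Agent.Q190.KS.Comp
import Pool.Agent.TH286.CR.GE
import Pool.Agent.H139R3.FM

set_option autoImplicit false

/-! # Minimal `K_σ` realizations -/

namespace Pool.Agent.Q190.KS

open Set TopologicalSpace Filter Topology MeasureTheory

/-- Glimm-Effros dichotomy, with Borel transversals -/
theorem glimm_effros' {X : Type} [MeasurableSpace X] [StandardBorelSpace X] (s : ℕ → X → X)
    (hs : ∀ n, Measurable (s n)) (hinv : ∀ n x, s n (s n x) = x) (E : X → X → Prop)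
    (hE : Equivalence E) (hsE : ∀ x y, E x y ↔ ∃ n, s n x = y)
    (hns : ¬ ∃ T : Set X, MeasurableSet T ∧ ∀ x, ∃! y, y ∈ T ∧ E x y) :
    ∃ j : (ℕ → Bool) → X, Measurable j ∧ Function.Injective j ∧
      ∀ a b, E (j a) (j b) ↔ ∃ N, ∀ n, N ≤ n → a n = b n := by
  classical
  let s' : ℕ → X → X := fun n => Nat.casesOn n id s
  have hs'0 : ∀ x, s' 0 x = x := fun x => rfl
  have hs's : ∀ n x, s' (n + 1) x = s n x := fun n x => rfl
  have hs' : ∀ n, Measurable (s' n) := by
    intro n
    cases n with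
    | zero => exact measurable_id
    | succ n => exact hs n
  have hinv' : ∀ n x, s' n (s' n x) = x := by
    intro n x
    cases n with
    | zero => rfl
    | succ n => exact hinv n x
  have hsE' : ∀ x y, E x y ↔ ∃ n, s' n x = y := by
    intro x y
    constructor
    · intro h
      obtain ⟨n, hn⟩ := (hsE x y).1 h
      exact ⟨n + 1, hn⟩
    · rintro ⟨n, hn⟩
      cases n with
      | zero =>
        have : x = y := hn
        rw [this]
        exact hE.refl y
      | succ n => exact (hsE x y).2 ⟨n, hn⟩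
  let _ := upgradeStandardBorel X
  obtain ⟨t, ht, hpol, hbor, hcont, -⟩ := Pool.Agent.H139R3.MF.exists_topology (X := X)
    (H := Unit) s' hs' (fun _ => ()) measurable_const
  clear_value s'
  let _ : TopologicalSpace X := t
  have := hpol
  have := hbor
  let _ := TopologicalSpace.upgradeIsCompletelyMetrizable X
  by_cases hrec : ∃ x0 : X, ∀ O : Set X, IsOpen O → x0 ∈ O → ∃ k, s' k x0 ∈ O ∧ s' k x0 ≠ x0
  · obtain ⟨x0, hx0⟩ := hrec
    exact Pool.Agent.TH286.CR.GEaux.exists_embedding hE s' hcont hs'0 hinv' hsE' hx0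
  · exfalso
    apply hns
    push Not at hrec
    obtain ⟨g, hg, hgE, hgE'⟩ := Pool.Agent.TH286.CR.GEaux.exists_selector s' hs' E hE hsE' hrec
    refine ⟨{x | g x = x}, measurableSet_eq_fun hg measurable_id, fun x => ⟨g x, ⟨?_, hgE x⟩, ?_⟩⟩
    · exact (hgE' _ _ (hgE x)).symm
    · rintro y ⟨hy, hxy⟩
      have h1 : g y = y := hy
      rw [← h1]
      exact (hgE' _ _ hxy).symm

/-- the topology -/
theorem exists_top {X : Type} [MeasurableSpace X] [StandardBorelSpace X] (s : ℕ → X → X)
    (hs : ∀ n, Measurable (s n)) {H : Type} [TopologicalSpace H] [SecondCountableTopology H]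
    [MeasurableSpace H] [OpensMeasurableSpace H] (h : X → H) (hh : Measurable h) :
    ∃ t : TopologicalSpace X, @PolishSpace X t ∧ @BorelSpace X t _ ∧
      (∀ n, @Continuous X X t t (s n)) ∧ @Continuous X H t _ h ∧ @ZD X t := by
  let := upgradeStandardBorel X
  obtain ⟨t, -, h1, h2, h3, h4, h5⟩ := exists_topology s hs h hh
  exact ⟨t, h1, h2, h3, h4, h5⟩

/-- properness, in terms of ultrafilters -/
def PR {X : Type} [TopologicalSpace X] (p : X → X) : Prop :=
  ∀ (U : Ultrafilter X) (y : X), Tendsto p U (𝓝 y) → ∃ x, p x = y ∧ (U : Filter X) ≤ 𝓝 x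

theorem pr_of_bound {X : Type} [TopologicalSpace X] [T2Space X] (s : ℕ → X → X)
    (hs : ∀ n, Continuous (s n)) (f : X → X) (hf : Continuous f) (N : X → ℕ) (hN : Continuous N)
    (h : ∀ x, ∃ i ≤ N (f x), s i (f x) = x) : PR f := by
  intro U y hU
  have h1 : ∀ᶠ x in (U : Filter X), N (f x) = N y := by
    have := (hN.tendsto y).comp hU
    rw [nhds_discrete ℕ] at this
    exact tendsto_pure.1 this
  have h2 : (⋃ i ∈ Iic (N y), {x | s i (f x) = x}) ∈ U := by
    filter_upwards [h1] with x hx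
    obtain ⟨i, hi, hix⟩ := h x
    rw [hx] at hi
    simp only [mem_iUnion]
    exact ⟨i, hi, hix⟩
  rw [Ultrafilter.finite_biUnion_mem_iff (finite_Iic _)] at h2
  obtain ⟨i, -, hi⟩ := h2
  have h3 : Tendsto (fun x => s i (f x)) U (𝓝 (s i y)) := ((hs i).tendsto y).comp hU
  have h4 : Tendsto id (U : Filter X) (𝓝 (s i y)) := h3.congr' hi
  refine ⟨s i y, ?_, h4⟩
  exact tendsto_nhds_unique ((hf.tendsto _).comp h4) hU

theorem pr_comp {X : Type} [TopologicalSpace X] (p g : X → X) (hp : PR p)
    (hg : Continuous g) (hgg : ∀ x, g (g x) = x) : PR (fun x => p (g x)) := by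
  intro U y hU
  obtain ⟨x, hx, hxU⟩ := hp (U.map g) y hU
  refine ⟨g x, by show p (g (g x)) = y; rw [hgg]; exact hx, ?_⟩
  have h1 : Tendsto g (U : Filter X) (𝓝 x) := hxU
  have h2 : Tendsto (fun z => g (g z)) (U : Filter X) (𝓝 (g x)) := (hg.tendsto x).comp h1
  have h3 : (fun z => g (g z)) = id := funext hgg
  rw [h3] at h2
  exact h2

theorem clos_left {X Q : Type} [TopologicalSpace X] [TopologicalSpace Q] [T2Space Q] (e : X → Q)
    (he : IsEmbedding e) (p q : X → X) (hq : Continuous q) (hp : PR p) (a b : Q)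
    (hab : (a, b) ∈ closure (range fun x => (e (p x), e (q x)))) (ha : a ∈ range e) :
    ∃ x, a = e (p x) ∧ b = e (q x) := by
  obtain ⟨x0, rfl⟩ := ha
  have hne : (comap (fun x => (e (p x), e (q x))) (𝓝 (e x0, b))).NeBot := by
    rw [comap_neBot_iff]
    intro t ht
    obtain ⟨_, h1, ⟨x, rfl⟩⟩ := mem_closure_iff_nhds.1 hab t ht
    exact ⟨x, h1⟩
  let U : Ultrafilter X := Ultrafilter.of (comap (fun x => (e (p x), e (q x))) (𝓝 (e x0, b)))
  have hU : Tendsto (fun x => (e (p x), e (q x))) U (𝓝 (e x0, b)) :=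
    (map_mono (Ultrafilter.of_le _)).trans map_comap_le
  rw [Prod.tendsto_iff] at hU
  have h1 : Tendsto p U (𝓝 x0) := he.tendsto_nhds_iff.2 hU.1
  obtain ⟨x, hx, hxU⟩ := hp U x0 h1
  refine ⟨x, by rw [hx], ?_⟩
  have h2 : Tendsto (fun x => e (q x)) (U : Filter X) (𝓝 (e (q x))) :=
    ((he.continuous.comp hq).tendsto x).mono_left hxU
  exact tendsto_nhds_unique hU.2 h2

theorem clos_cases {X Q : Type} [TopologicalSpace X] [TopologicalSpace Q] [T2Space Q] (e : X → Q)
    (he : IsEmbedding e) (p q : X → X) (hpc : Continuous p) (hqc : Continuous q) (hp : PR p)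
    (hq : PR q) (a b : Q) (hab : (a, b) ∈ closure (range fun x => (e (p x), e (q x)))) :
    (∃ x, a = e (p x) ∧ b = e (q x)) ∨ (a ∉ range e ∧ b ∉ range e) := by
  by_cases ha : a ∈ range e
  · exact Or.inl (clos_left e he p q hqc hp a b hab ha)
  · by_cases hb : b ∈ range e
    · left
      have h1 : (b, a) ∈ closure (range fun x => (e (q x), e (p x))) := by
        have h2 := mem_closure_image (continuous_swap.continuousAt) hab
        rw [← range_comp] at h2
        exact h2
      obtain ⟨x, h3, h4⟩ := clos_left e he q p hpc hq b a h1 hb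
      exact ⟨x, h4, h3⟩
    · exact Or.inr ⟨ha, hb⟩

/-- the theorem -/
theorem main {X : Type} [MeasurableSpace X] [StandardBorelSpace X] (E : X → X → Prop)
    (hE : Equivalence E) (hEm : MeasurableSet {p : X × X | E p.1 p.2})
    (hc : ∀ x, {y | E x y}.Countable) (ha : ∀ x, {y | E x y}.Infinite)
    (hns : ¬ ∃ T : Set X, MeasurableSet T ∧ ∀ x, ∃! y, y ∈ T ∧ E x y) :
    ∃ (Y : Type) (_ : TopologicalSpace Y) (_ : PolishSpace Y) (_ : MeasurableSpace Y)
      (_ : BorelSpace Y) (F : X ≃ᵐ Y),
      (∃ K : ℕ → Set (Y × Y), (∀ n, IsCompact (K n)) ∧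
        {p : Y × Y | E (F.symm p.1) (F.symm p.2)} = ⋃ n, K n) ∧
      ∀ y, Dense {z | E (F.symm y) (F.symm z)} := by
  classical
  obtain ⟨s, hs, hinv, hsE⟩ := Pool.Agent.H139R3.FM.feldman_moore E hE hEm hc
  obtain ⟨j, hj, hji, hjE⟩ := glimm_effros' s hs hinv E hE hsE hns
  obtain ⟨β0, f0, N0, hβ0, hf0, hN0, hfE, hfβ, hff, hfN⟩ := exists_retr s hs hinv E hE hsE ha
  let g : ℕ → X → X := fun n => if n % 2 = 0 then s (n / 2) else f0 (n / 2)
  have hg : ∀ n, Measurable (g n) := by
    intro n
    by_cases h : n % 2 = 0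
    · simp only [g, if_pos h]; exact hs _
    · simp only [g, if_neg h]; exact hf0 _
  have hgs : ∀ n, g (2 * n) = s n := by
    intro n
    simp only [g]
    rw [if_pos (by omega), show 2 * n / 2 = n by omega]
  have hgf : ∀ n, g (2 * n + 1) = f0 n := by
    intro n
    simp only [g]
    rw [if_neg (by omega), show (2 * n + 1) / 2 = n by omega]
  obtain ⟨t, hP, hB, hgc, hhc, hZ⟩ := exists_top g hg (H := ℕ × (ℕ → ℕ))
    (fun x => (β0 x, fun d => N0 d x)) (hβ0.prodMk (measurable_pi_lambda _ hN0))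
  let en : D ≃ ℕ := Denumerable.eqv D
  have hsc : ∀ n, Continuous (s n) := fun n => by rw [← hgs]; exact hgc _
  have hfc : ∀ n, Continuous (f0 n) := fun n => by rw [← hgf]; exact hgc _
  have hβc : Continuous β0 := continuous_fst.comp hhc
  have hNc : ∀ d, Continuous (N0 d) := fun d => (continuous_apply d).comp (continuous_snd.comp hhc)
  have hpr : ∀ d, PR (f0 d) := fun d => pr_of_bound s hsc (f0 d) (hfc d) (N0 d) (hNc d) (hfN d)
  obtain ⟨Q, tQ, cQ, pQ, e, he, hcount, q0, hq0⟩ := exists_compact hZ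
  let mQ : MeasurableSpace Q := borel Q
  have bQ : BorelSpace Q := ⟨rfl⟩
  have hXne : Nonempty X := ⟨j fun _ => true⟩
  obtain ⟨x, hx⟩ := TopologicalSpace.exists_dense_seq X
  let f : D → X → X := fun d => f0 (en d)
  let u : ℕ → D → Q := fun n d =>
    if n.unpair.1 = 0 then q0 else e (f d (x (n.unpair.1 - 1)))
  let K : D → Set Q := fun d => closure (range fun x => e (f d x)) ∪ {q0}
  have hKe : ∀ d x, e x ∈ K d ↔ en.symm (β0 x) = d := by
    intro d x
    constructor
    · rintro (h | h)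
      · have h1 : x ∈ closure (range (f d)) := by
          rw [he.closure_eq_preimage_closure_image, mem_preimage, ← range_comp]
          exact h
        have h2 : IsClosed {y | β0 y = en d} := isClosed_eq hβc continuous_const
        have h3 : closure (range (f d)) ⊆ {y | β0 y = en d} := by
          refine closure_minimal ?_ h2
          rintro _ ⟨y, rfl⟩
          exact hfβ _ _
        have h4 : β0 x = en d := h3 h1
        rw [h4, en.symm_apply_apply]
      · exact absurd ⟨x, h⟩ hq0
    · rintro rfl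
      left
      refine subset_closure ⟨x, ?_⟩
      show e (f0 (en (en.symm (β0 x))) x) = e x
      rw [en.apply_symm_apply, hff]
  refine core E hE s hs hinv hsE j hj hji hjE (fun x => en.symm (β0 x))
    ((measurable_of_countable fun n => io (en.symm n)).comp hβ0) f (fun d x => hfE _ _)
    (fun d x => ?_) (fun x => ?_) e he.continuous.measurable he.injective hcount q0 hq0 u K
    (fun d => isClosed_closure.union isClosed_singleton) hKe (fun d => Or.inr rfl) ?_ ?_
    (fun d d' => closure (range fun x => (e (f d x), e (f d' x))) ∪ {(q0, q0)})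
    (fun d d' => isClosed_closure.union isClosed_singleton) ?_ ?_
    (fun d d' n => closure (range fun x => (e (f d x), e (f d' (s n x)))))
    (fun d d' n => isClosed_closure) ?_ ?_
  · show en.symm (β0 (f0 (en d) x)) = d
    rw [hfβ, en.symm_apply_apply]
  · show f0 (en (en.symm (β0 x))) x = x
    rw [en.apply_symm_apply, hff]
  · intro n d
    by_cases h : n.unpair.1 = 0
    · simp only [u, if_pos h]; exact Or.inr rfl
    · simp only [u, if_neg h]; exact Or.inl (subset_closure (mem_range_self _))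
  · intro d q hq m W hW
    rcases hq with hq | hq
    · obtain ⟨O, hOW, hO, hqO⟩ := mem_nhds_iff.1 hW
      obtain ⟨_, h1, ⟨x1, rfl⟩⟩ := mem_closure_iff.1 hq O hO hqO
      have h2 : IsOpen ((fun x => e (f d x)) ⁻¹' O) :=
        hO.preimage (he.continuous.comp (hfc _))
      obtain ⟨k, hk⟩ := hx.exists_mem_open h2 ⟨x1, h1⟩
      refine ⟨Nat.pair (k + 1) m, Nat.right_le_pair _ _, ?_⟩
      have h3 : ¬ (Nat.pair (k + 1) m).unpair.1 = 0 := by
        rw [Nat.unpair_pair]; simp
      simp only [u, if_neg h3]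
      rw [Nat.unpair_pair]
      exact hOW hk
    · have hq' : q = q0 := hq
      subst hq'
      refine ⟨Nat.pair 0 m, Nat.right_le_pair _ _, ?_⟩
      have h3 : (Nat.pair 0 m).unpair.1 = 0 := by rw [Nat.unpair_pair]
      simp only [u, if_pos h3]
      exact mem_of_mem_nhds hW
  · rintro d d' a b (h | h)
    · exact clos_cases e he _ _ (hfc _) (hfc _) (hpr _) (hpr _) a b h
    · right
      have h' : (a, b) = (q0, q0) := h
      rw [Prod.mk.injEq] at h'
      rw [h'.1, h'.2]
      exact ⟨hq0, hq0⟩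
  · intro n d d'
    by_cases h : n.unpair.1 = 0
    · simp only [u, if_pos h]; exact Or.inr rfl
    · simp only [u, if_neg h]; exact Or.inl (subset_closure (mem_range_self _))
  · intro d d' n a b h
    exact clos_cases e he (f d) (fun x => f d' (s n x)) (hfc _) ((hfc _).comp (hsc n)) (hpr _)
      (pr_comp _ _ (hpr _) (hsc n) (hinv n)) a b h
  · intro d d' n x
    exact subset_closure (mem_range_self (f := fun x => (e (f d x), e (f d' (s n x)))) x)

/-- the theorem, in every universe -/
theorem main' {X : Type*} [MeasurableSpace X] [StandardBorelSpace X] (hX : ¬ Countable X)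
    (E : X → X → Prop)
    (hE : Equivalence E) (hEm : MeasurableSet {p : X × X | E p.1 p.2})
    (hc : ∀ x, {y | E x y}.Countable) (ha : ∀ x, {y | E x y}.Infinite)
    (hns : ¬ ∃ T : Set X, MeasurableSet T ∧ ∀ x, ∃! y, y ∈ T ∧ E x y) :
    ∃ (Y : Type) (_ : TopologicalSpace Y) (_ : PolishSpace Y) (_ : MeasurableSpace Y)
      (_ : BorelSpace Y) (f : X ≃ᵐ Y),
      (∃ K : ℕ → Set (Y × Y), (∀ n, IsCompact (K n)) ∧
        {p : Y × Y | E (f.symm p.1) (f.symm p.2)} = ⋃ n, K n) ∧
      ∀ y, Dense {z | E (f.symm y) (f.symm z)} := by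
  let φ : X ≃ᵐ (ℕ → Bool) := PolishSpace.measurableEquivNatBoolOfNotCountable hX
  have himg : ∀ a, {b | E (φ.symm a) (φ.symm b)} = φ '' {y | E (φ.symm a) y} := by
    intro a
    rw [φ.image_eq_preimage_symm]
    rfl
  obtain ⟨Y, tY, pY, mY, bY, F, h1, h2⟩ := main (fun a b : ℕ → Bool => E (φ.symm a) (φ.symm b))
    ⟨fun a => hE.refl _, fun h => hE.symm h, fun h h' => hE.trans h h'⟩
    (hEm.preimage ((φ.symm.measurable.comp measurable_fst).prodMk
      (φ.symm.measurable.comp measurable_snd)))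
    (fun a => by rw [himg]; exact (hc _).image _)
    (fun a => by rw [himg]; exact (ha _).image φ.injective.injOn)
    (by
      rintro ⟨T, hT, hTx⟩
      apply hns
      refine ⟨φ ⁻¹' T, φ.measurable hT, fun x => ?_⟩
      obtain ⟨y, ⟨hy1, hy2⟩, hy3⟩ := hTx (φ x)
      refine ⟨φ.symm y, ⟨?_, ?_⟩, ?_⟩
      · rw [mem_preimage, φ.apply_symm_apply]
        exact hy1
      · have : E (φ.symm (φ x)) (φ.symm y) := hy2
        rw [φ.symm_apply_apply] at this
        exact this
      · rintro z ⟨hz1, hz2⟩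
        have h3 := hy3 (φ z) ⟨hz1, by
          show E (φ.symm (φ x)) (φ.symm (φ z))
          rw [φ.symm_apply_apply, φ.symm_apply_apply]
          exact hz2⟩
        rw [← h3, φ.symm_apply_apply])
  exact ⟨Y, tY, pY, mY, bY, φ.trans F, h1, h2⟩

end Pool.Agent.Q190.KS
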